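import Mathlib
import Pool.Agent.TH876.KR.Def

set_option autoImplicit false

namespace Pool.Agent.TH876.KR

open NumberField IsDedekindDomain Finset Pool.Agent.H691R3 Pool.Agent.TH876.Loc

variable {K : Type} [Field K] [NumberField K]

variable (K) in
theorem finite_primes (M : ℝ) : {v : Pr K | Nv v ≤ M}.Finite := by
  have h1 : {I : Ideal (𝓞 K) | Ideal.absNorm I ≤ ⌊M⌋₊}.Finite :=
    Ideal.finite_setOf_absNorm_le ⌊M⌋₊
  have h2 : Function.Injective (fun v : Pr K => v.asIdeal) := fun u v huv =>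
    HeightOneSpectrum.ext huv
  refine (h1.preimage h2.injOn).subset ?_
  intro v hv
  have hv' : Nv v ≤ M := hv
  show Ideal.absNorm v.asIdeal ≤ ⌊M⌋₊
  apply Nat.le_floor
  exact hv'

theorem sum_rpow_le (δ : ℝ) (hδ : 0 < δ) (F : Finset (Pr K)) :
    ∑ v ∈ F, (Nv v) ^ (-(1 + δ)) ≤
      (Module.finrank ℚ K : ℝ) * ∑' n : ℕ, ((n : ℝ) ^ (1 + δ))⁻¹ := by
  classical
  have hs : Summable fun n : ℕ => ((n : ℝ) ^ (1 + δ))⁻¹ :=
    Real.summable_nat_rpow_inv.2 (by linarith)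
  have h1 : ∑ v ∈ F, (Nv v) ^ (-(1 + δ)) ≤ ∑ v ∈ F, ((pv v : ℝ) ^ (1 + δ))⁻¹ := by
    refine Finset.sum_le_sum fun v _ => ?_
    rw [Real.rpow_neg (Nv_pos v).le]
    have hp : (0 : ℝ) < pv v := by exact_mod_cast (pv_prime v).pos
    exact inv_anti₀ (Real.rpow_pos_of_pos hp _)
      (Real.rpow_le_rpow hp.le (pv_le_Nv v) (by linarith))
  have h2 : ∑ v ∈ F, ((pv v : ℝ) ^ (1 + δ))⁻¹ =
      ∑ p ∈ F.image pv, ((F.filter fun v => pv v = p).card : ℝ) * ((p : ℝ) ^ (1 + δ))⁻¹ := by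
    rw [Finset.sum_comp (fun p : ℕ => ((p : ℝ) ^ (1 + δ))⁻¹) pv]
    simp only [nsmul_eq_mul]
  have h3 : ∑ p ∈ F.image pv, ((F.filter fun v => pv v = p).card : ℝ) * ((p : ℝ) ^ (1 + δ))⁻¹ ≤
      ∑ p ∈ F.image pv, (Module.finrank ℚ K : ℝ) * ((p : ℝ) ^ (1 + δ))⁻¹ := by
    refine Finset.sum_le_sum fun p _ => ?_
    refine mul_le_mul_of_nonneg_right ?_ (by positivity)
    exact_mod_cast card_above p _ fun v hv => (Finset.mem_filter.1 hv).2
  rw [← Finset.mul_sum] at h3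
  have h4 : ∑ p ∈ F.image pv, ((p : ℝ) ^ (1 + δ))⁻¹ ≤ ∑' n : ℕ, ((n : ℝ) ^ (1 + δ))⁻¹ :=
    hs.sum_le_tsum _ fun n _ => by positivity
  calc _ ≤ _ := h1
    _ = _ := h2
    _ ≤ _ := h3
    _ ≤ _ := mul_le_mul_of_nonneg_left h4 (Nat.cast_nonneg _)

variable (K) in
theorem sum_sets (C : ℝ) (hC : 1 ≤ C) (δ : ℝ) (hδ : 0 < δ) :
    (∀ M : ℝ, {s : Finset (Pr K) | nn s ≤ M}.Finite) ∧
    ∃ D : ℝ, 0 < D ∧ ∀ M : ℝ, 1 ≤ M → ∀ U : Finset (Finset (Pr K)), (∀ s ∈ U, nn s ≤ M) →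
      ∑ s ∈ U, C ^ s.card ≤ D * M ^ (1 + δ) := by
  classical
  constructor
  · intro M
    refine ((finite_primes K M).toFinset.powerset.finite_toSet).subset ?_
    intro s hs
    have hs' : nn s ≤ M := hs
    rw [Finset.mem_coe, Finset.mem_powerset]
    intro v hv
    rw [Set.Finite.mem_toFinset]
    exact (Nv_le_nn hv).trans hs'
  · have hC0 : 0 < C := by linarith
    set S : ℝ := ∑' n : ℕ, ((n : ℝ) ^ (1 + δ))⁻¹ with hS
    refine ⟨Real.exp (C * ((Module.finrank ℚ K : ℝ) * S)), Real.exp_pos _, ?_⟩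
    intro M hM U hU
    have hM0 : 0 < M := by linarith
    have h1 := sum_sets_le (fun v : Pr K => C * (Nv v) ^ (-(1 + δ)))
      (fun v => mul_nonneg hC0.le (Real.rpow_nonneg (Nv_pos v).le _))
      (U.biUnion id) U (fun s hs => Finset.subset_biUnion_of_mem id hs)
    have h2 : ∑ v ∈ U.biUnion id, C * (Nv v) ^ (-(1 + δ)) ≤
        C * ((Module.finrank ℚ K : ℝ) * S) := by
      rw [← Finset.mul_sum]
      exact mul_le_mul_of_nonneg_left (sum_rpow_le δ hδ _) hC0.le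
    have h3 : ∀ s ∈ U, C ^ s.card ≤ M ^ (1 + δ) * ∏ v ∈ s, (C * (Nv v) ^ (-(1 + δ))) := by
      intro s hs
      rw [Finset.prod_mul_distrib, Finset.prod_const]
      have e1 : ∏ v ∈ s, (Nv v) ^ (-(1 + δ)) = (nn s) ^ (-(1 + δ)) := by
        unfold nn
        rw [Real.finset_prod_rpow _ _ (fun v _ => (Nv_pos v).le)]
      rw [e1]
      have e2 : 1 ≤ M ^ (1 + δ) * (nn s) ^ (-(1 + δ)) := by
        rw [Real.rpow_neg (nn_pos s).le, ← div_eq_mul_inv,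
          one_le_div (Real.rpow_pos_of_pos (nn_pos s) _)]
        exact Real.rpow_le_rpow (nn_pos s).le (hU s hs) (by linarith)
      have e3 : 0 < C ^ s.card := pow_pos hC0 _
      nlinarith
    calc ∑ s ∈ U, C ^ s.card
        ≤ ∑ s ∈ U, M ^ (1 + δ) * ∏ v ∈ s, (C * (Nv v) ^ (-(1 + δ))) := Finset.sum_le_sum h3
      _ = M ^ (1 + δ) * ∑ s ∈ U, ∏ v ∈ s, (C * (Nv v) ^ (-(1 + δ))) := by
          rw [Finset.mul_sum]
      _ ≤ M ^ (1 + δ) * Real.exp (C * ((Module.finrank ℚ K : ℝ) * S)) :=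
          mul_le_mul_of_nonneg_left (h1.trans (Real.exp_le_exp.2 h2))
            (Real.rpow_nonneg hM0.le _)
      _ = _ := by ring

end Pool.Agent.TH876.KR
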