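import Mathlib
import Pool.Agent.TH876.KR.Def

set_option autoImplicit false

/-!
# Lifting the exponent at a prime of a number field (helper263, job KR-5 of helper876)
-/

namespace Pool.Agent.TH876.KR

open NumberField IsDedekindDomain Finset Pool.Agent.H691R3 Pool.Agent.TH876.Loc

variable {K : Type} [Field K] [NumberField K]

theorem fv_pv_lt_one (v : Pr K) : fv v ((pv v : ℕ) : K) < 1 := by
  have h : fv v (((pv v : ℕ) : 𝓞 K) : K) < 1 :=
    (NumberField.FinitePlace.norm_lt_one_iff_mem K v _).2 (pv_mem v)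
  simpa using h

theorem fv_pv_pos (v : Pr K) : 0 < fv v ((pv v : ℕ) : K) :=
  (fv v).pos (Nat.cast_ne_zero.2 (pv_prime v).ne_zero)

/-- naturals prime to the residue characteristic are units -/
theorem fv_natCast_eq_one (v : Pr K) {m : ℕ} (hm : Nat.Coprime (pv v) m) : fv v ((m : ℕ) : K) = 1 := by
  refine le_antisymm (fv_natCast_le v m) ?_
  by_contra hlt
  rw [not_le] at hlt
  obtain ⟨a, b, hab⟩ : ∃ a b : ℤ, (pv v : ℤ) * a + (m : ℤ) * b = 1 := by
    have h := Nat.isCoprime_iff_coprime.2 hm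
    obtain ⟨a, b, hab⟩ := h
    exact ⟨a, b, by linarith⟩
  have hint : ∀ a : ℤ, fv v ((a : ℤ) : K) ≤ 1 := by
    intro a
    rcases Int.natAbs_eq a with h | h
    · rw [h, Int.cast_natCast]; exact fv_natCast_le v _
    · rw [h, Int.cast_neg, (fv v).map_neg, Int.cast_natCast]; exact fv_natCast_le v _
  have h1 : ((pv v : ℕ) : K) * (a : K) + ((m : ℕ) : K) * (b : K) = 1 := by exact_mod_cast hab
  have h2 : fv v (1 : K) ≤ max (fv v (((pv v : ℕ) : K) * (a : K))) (fv v (((m : ℕ) : K) * (b : K))) := by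
    rw [← h1]; exact fv_na v _ _
  rw [map_one, map_mul, map_mul] at h2
  have k1 : fv v ((pv v : ℕ) : K) * fv v (a : K) < 1 := by
    have := fv_pv_lt_one v
    have h3 := hint a
    have h4 := (fv v).nonneg (a : K)
    have h5 := (fv v).nonneg ((pv v : ℕ) : K)
    nlinarith
  have k2 : fv v ((m : ℕ) : K) * fv v (b : K) < 1 := by
    have h3 := hint b
    have h4 := (fv v).nonneg (b : K)
    have h5 := (fv v).nonneg ((m : ℕ) : K)
    nlinarith
  exact absurd h2 (not_le.2 (max_lt k1 k2))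

/-- the absolute value of a natural number `j ≥ 1` is at least `|p| ^ (j - 1)` -/
theorem fv_natCast_ge (v : Pr K) {j : ℕ} (hj : 1 ≤ j) :
    fv v ((pv v : ℕ) : K) ^ (j - 1) ≤ fv v ((j : ℕ) : K) := by
  have hp := pv_prime v
  obtain ⟨m, j', hj', hjm⟩ := Nat.exists_eq_pow_mul_and_not_dvd (Nat.one_le_iff_ne_zero.1 hj) (pv v)
    hp.ne_one
  have hm : m ≤ j - 1 := by
    have h1 : m < pv v ^ m := Nat.lt_pow_self hp.one_lt
    have h2 : pv v ^ m ≤ j := by
      rw [hjm]
      refine Nat.le_mul_of_pos_right _ (Nat.pos_of_ne_zero ?_)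
      rintro rfl
      exact hj' (dvd_zero _)
    omega
  have h1 : fv v ((j : ℕ) : K) = fv v ((pv v : ℕ) : K) ^ m := by
    rw [hjm, Nat.cast_mul, map_mul, Nat.cast_pow, map_pow,
      fv_natCast_eq_one v ((Nat.Prime.coprime_iff_not_dvd hp).2 hj'), mul_one]
  rw [h1]
  exact pow_le_pow_of_le_one ((fv v).nonneg _) (fv_pv_lt_one v).le hm

theorem lte (v : Pr K) {g : K} {e : ℕ} (he : 1 ≤ e)
    (h : fv v (g - 1) ≤ fv v ((pv v : ℕ) : K) ^ 2) :
    fv v (g - 1) * fv v ((e : ℕ) : K) ≤ fv v (g ^ e - 1) := by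
  obtain ⟨t, ht⟩ : ∃ t, t = g - 1 := ⟨_, rfl⟩
  have hg : g = t + 1 := by rw [ht]; ring
  rw [← ht] at h ⊢
  rcases eq_or_ne t 0 with h0 | h0
  · rw [h0, map_zero, zero_mul]
    exact (fv v).nonneg _
  have htp : 0 < fv v t := (fv v).pos h0
  have hep : 0 < fv v ((e : ℕ) : K) := (fv v).pos (Nat.cast_ne_zero.2 (by omega))
  obtain ⟨π, hπ⟩ : ∃ π, π = fv v ((pv v : ℕ) : K) := ⟨_, rfl⟩
  have hπ0 : 0 < π := by rw [hπ]; exact fv_pv_pos v
  have hπ1 : π < 1 := by rw [hπ]; exact fv_pv_lt_one v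
  rw [← hπ] at h
  obtain ⟨n, rfl⟩ : ∃ n, e = n + 1 := ⟨e - 1, by omega⟩
  -- the expansion
  have hexp : g ^ (n + 1) - 1 = ((n + 1 : ℕ) : K) * t +
      ∑ j ∈ range n, t ^ (j + 2) * ((n + 1).choose (j + 2) : K) := by
    rw [hg, add_pow, Finset.sum_range_succ', Finset.sum_range_succ']
    simp only [one_pow, mul_one, pow_zero, Nat.choose_zero_right, Nat.cast_one, zero_add, pow_one,
      Nat.choose_one_right]
    ring
  have hterm : ∀ j ∈ range n, fv v (t ^ (j + 2) * ((n + 1).choose (j + 2) : K)) ≤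
      fv v ((n + 1 : ℕ) : K) * fv v t * π := by
    intro j _
    have h1 : ((n + 1).choose (j + 2) : K) * ((j + 2 : ℕ) : K) =
        ((n + 1 : ℕ) : K) * (n.choose (j + 1) : K) := by
      have h2 : (n + 1) * n.choose (j + 1) = (n + 1).choose (j + 2) * (j + 2) :=
        Nat.add_one_mul_choose_eq n (j + 1)
      exact_mod_cast h2.symm
    have h2 := congrArg (fv v) h1
    rw [map_mul, map_mul] at h2
    have h3 : fv v (n.choose (j + 1) : K) ≤ 1 := fv_natCast_le v _
    have h4 := fv_natCast_ge v (show 1 ≤ j + 2 by omega)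
    rw [← hπ] at h4
    have e1 : j + 2 - 1 = j + 1 := by omega
    rw [e1] at h4
    have h5 : fv v ((n + 1).choose (j + 2) : K) * π ^ (j + 1) ≤ fv v ((n + 1 : ℕ) : K) := by
      calc fv v ((n + 1).choose (j + 2) : K) * π ^ (j + 1) ≤
          fv v ((n + 1).choose (j + 2) : K) * fv v ((j + 2 : ℕ) : K) :=
            mul_le_mul_of_nonneg_left h4 ((fv v).nonneg _)
        _ = _ := h2
        _ ≤ fv v ((n + 1 : ℕ) : K) * 1 := mul_le_mul_of_nonneg_left h3 ((fv v).nonneg _)
        _ = _ := mul_one _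
    have h6 : fv v t ^ (j + 1) ≤ π ^ (j + 1) * π := by
      calc fv v t ^ (j + 1) ≤ (π ^ 2) ^ (j + 1) := pow_le_pow_left₀ htp.le h _
        _ = π ^ (j + 1) * π ^ (j + 1) := by rw [← pow_mul, two_mul, pow_add]
        _ ≤ π ^ (j + 1) * π := by
            refine mul_le_mul_of_nonneg_left ?_ (by positivity)
            exact pow_le_of_le_one hπ0.le hπ1.le (by omega)
    rw [map_mul, map_pow]
    calc fv v t ^ (j + 2) * fv v ((n + 1).choose (j + 2) : K) =
        fv v t * fv v ((n + 1).choose (j + 2) : K) * fv v t ^ (j + 1) := by ring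
      _ ≤ fv v t * fv v ((n + 1).choose (j + 2) : K) * (π ^ (j + 1) * π) :=
          mul_le_mul_of_nonneg_left h6 (mul_nonneg htp.le ((fv v).nonneg _))
      _ = (fv v ((n + 1).choose (j + 2) : K) * π ^ (j + 1)) * (fv v t * π) := by ring
      _ ≤ fv v ((n + 1 : ℕ) : K) * (fv v t * π) :=
          mul_le_mul_of_nonneg_right h5 (by positivity)
      _ = _ := by ring
  have hsum := fv_sum_le v (range n) (fun j => t ^ (j + 2) * ((n + 1).choose (j + 2) : K)) _
    (by positivity) hterm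
  by_contra hcon
  rw [not_le] at hcon
  have h7 : ((n + 1 : ℕ) : K) * t = (g ^ (n + 1) - 1) +
      -(∑ j ∈ range n, t ^ (j + 2) * ((n + 1).choose (j + 2) : K)) := by
    rw [hexp]; ring
  have h8 := fv_na v (g ^ (n + 1) - 1)
    (-(∑ j ∈ range n, t ^ (j + 2) * ((n + 1).choose (j + 2) : K)))
  rw [← h7, map_mul, (fv v).map_neg] at h8
  have h9 : fv v ((n + 1 : ℕ) : K) * fv v t * π < fv v ((n + 1 : ℕ) : K) * fv v t := by
    have : 0 < fv v ((n + 1 : ℕ) : K) * fv v t := by positivity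
    nlinarith
  rcases le_max_iff.1 h8 with h10 | h10
  · rw [mul_comm] at h10; linarith
  · linarith

theorem sum_natCast_ge (T : Finset (Pr K)) {e : ℕ} (he : 1 ≤ e) :
    ∑ v ∈ T, -Real.log (fv v ((e : ℕ) : K)) ≤ (Module.finrank ℚ K : ℝ) * Real.log e := by
  classical
  have he0 : ((e : ℕ) : K) ≠ 0 := Nat.cast_ne_zero.2 (by omega)
  obtain ⟨V, hV⟩ : ∃ V : Finset (Pr K), V = T ∪ (fv_support_finite he0).toFinset := ⟨_, rfl⟩
  have hV1 : ∀ v, v ∉ V → fv v ((e : ℕ) : K) = 1 := by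
    intro v hv
    by_contra h
    apply hv
    rw [hV, Finset.mem_union]
    right
    rw [Set.Finite.mem_toFinset]
    exact h
  have h1 := sum_lg he0 hV1
  rw [sum_Spl] at h1
  have h2 : ∑ w : InfinitePlace K, lg (Sum.inl w : Pl K) ((e : ℕ) : K) =
      (Module.finrank ℚ K : ℝ) * Real.log e := by
    have h3 : ∀ w : InfinitePlace K, lg (Sum.inl w : Pl K) ((e : ℕ) : K) =
        (w.mult : ℝ) * Real.log e := by
      intro w
      show (w.mult : ℝ) * Real.log (w.1 ((e : ℕ) : K)) = _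
      have : w ((e : ℕ) : K) = ((e : ℕ) : ℝ) := by
        rw [← InfinitePlace.norm_embedding_eq, map_natCast, Complex.norm_natCast]
      have h4 : w.1 ((e : ℕ) : K) = ((e : ℕ) : ℝ) := this
      rw [h4]
    rw [Finset.sum_congr rfl fun w _ => h3 w, ← Finset.sum_mul]
    congr 1
    exact_mod_cast InfinitePlace.sum_mult_eq (K := K)
  have h3 : ∑ v ∈ V, lg (Sum.inr v : Pl K) ((e : ℕ) : K) = ∑ v ∈ V, Real.log (fv v ((e : ℕ) : K)) := by
    refine Finset.sum_congr rfl fun v _ => ?_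
    show 1 * Real.log (fv v ((e : ℕ) : K)) = _
    rw [one_mul]
  have h4 : ∑ v ∈ T, -Real.log (fv v ((e : ℕ) : K)) ≤ ∑ v ∈ V, -Real.log (fv v ((e : ℕ) : K)) := by
    refine Finset.sum_le_sum_of_subset_of_nonneg ?_ ?_
    · rw [hV]; exact Finset.subset_union_left
    · intro v _ _
      have h5 := fv_natCast_le v e
      have h6 := Real.log_nonpos ((fv v).nonneg _) h5
      linarith
  rw [Finset.sum_neg_distrib] at h4 ⊢
  rw [Finset.sum_neg_distrib] at h4
  linarith

end Pool.Agent.TH876.KR
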