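import Pool.Agent.TH876.KR.Gap
import Pool.Agent.TH876.KR.Cells

set_option autoImplicit false

/-!
# One point in a cell
-/

namespace Pool.Agent.TH876.KR

open NumberField IsDedekindDomain Finset Pool.Agent.H691R3 Pool.Agent.TH876.Loc

variable {K : Type} [Field K] [NumberField K]

theorem card_Spl_pos (S : Finset (Pr K)) : 0 < (Spl S).card := by
  rw [card_Spl]
  have : 0 < Fintype.card (InfinitePlace K) := Fintype.card_pos
  omega

/-- the contribution of the places of `S` and of infinity -/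
theorem sum_Spl_gd (S : Finset (Pr K)) {x : K} (hx : Pt x) :
    ∑ v ∈ Spl S, gd v x = 3 * hgt x - out S x := by
  classical
  have h1 := sum_gd hx (Finset.subset_union_left : sp x ⊆ sp x ∪ S)
  have h2 := out_eq S hx (Finset.subset_union_left : sp x ⊆ sp x ∪ S)
  rw [sum_Spl] at h1
  rw [sum_Spl]
  have h3 : ∑ v ∈ S, gd (Sum.inr v : Pl K) x + ∑ v ∈ (sp x ∪ S) \ S, gd (Sum.inr v : Pl K) x =
      ∑ v ∈ sp x ∪ S, gd (Sum.inr v : Pl K) x := by
    rw [add_comm]
    exact Finset.sum_sdiff (Finset.subset_union_right)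
  linarith

/-- minima of near defects -/
theorem sum_min_ge {S : Finset (Pr K)} {η : ℝ} {x y : K} (hN : Near S η x y) :
    ∑ v ∈ Spl S, gd v x - (Spl S).card * (3 * η) ≤
      ∑ v ∈ Spl S, ∑ i, min (df v i x) (df v i y) := by
  have h1 : ∀ v ∈ Spl S, gd v x - 3 * η ≤ ∑ i, min (df v i x) (df v i y) := by
    intro v hv
    have h2 : ∀ i ∈ (Finset.univ : Finset (Fin 3)), df v i x - η ≤ min (df v i x) (df v i y) := by
      intro i _
      have h3 := hN v hv i
      have h4 := le_abs_self (df v i x - df v i y)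
      have h5 : 0 ≤ η := (abs_nonneg _).trans h3
      exact le_min (by linarith) (by linarith)
    have h3 := Finset.sum_le_sum h2
    rw [Finset.sum_sub_distrib, Finset.sum_const, Finset.card_univ, Fintype.card_fin,
      nsmul_eq_mul] at h3
    unfold gd
    push_cast at h3
    exact h3
  have h2 := Finset.sum_le_sum h1
  rw [Finset.sum_sub_distrib, Finset.sum_const, nsmul_eq_mul] at h2
  exact h2

theorem prec_eq {k : ℕ} (hk : 1 ≤ k) (S : Finset (Pr K)) (l : ℝ) :
    ((Spl S).card : ℝ) * (3 * (l / (16 * k * (Spl S).card))) = 3 / 16 * (l / k) := by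
  have h1 : (0 : ℝ) < (Spl S).card := by exact_mod_cast card_Spl_pos S
  have h2 : (0 : ℝ) < k := by exact_mod_cast hk
  field_simp

theorem dK_nn : 0 ≤ dK K * Real.log 2 := dK_nonneg

/-- the numerical contradiction -/
theorem num_gap {k : ℕ} (hk : 1 ≤ k) {l hx hy c : ℝ} (hl : 4 * k * c < l) (hc : 0 ≤ c)
    (sx : l ≤ hx ∧ hx ≤ (1 + 1 / (4 * (k : ℝ))) * l) (sy : l ≤ hy ∧ hy ≤ (1 + 1 / (4 * (k : ℝ))) * l)
    (h : (2 + 1 / (k : ℝ)) * hx - 3 / 16 * (l / k) ≤ hx + hy + 2 * c) : False := by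
  have hk0 : (0 : ℝ) < k := by exact_mod_cast hk
  have hl0 : 0 < l := lt_of_le_of_lt (by positivity) hl
  have e1 : (2 + 1 / (k : ℝ)) * hx = 2 * hx + hx / k := by ring
  have e2 : (1 + 1 / (4 * (k : ℝ))) * l = l + (l / k) / 4 := by
    field_simp
  rw [e2] at sx sy
  rw [e1] at h
  have h1 : l / k ≤ hx / k := div_le_div_of_nonneg_right sx.1 hk0.le
  have h2 : 4 * c < l / k := by
    rw [lt_div_iff₀ hk0]
    linarith
  linarith [sx.1, sy.2]

/-- one cell contains at most one light point -/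
theorem light_inj {k : ℕ} (hk : 1 ≤ k) {S : Finset (Pr K)} {l : ℝ}
    (hl : 4 * k * (dK K * Real.log 2) < l) {x y : K} (hx : Pt x) (hy : Pt y) (sx : Sc k l x)
    (sy : Sc k l y) (hL : Light k S x) (hN : Near S (l / (16 * k * (Spl S).card)) x y) :
    x = y := by
  by_contra hne
  have hk0 : (0 : ℝ) < k := by exact_mod_cast hk
  have h1 := gapK hx hy hne (Spl S)
  have h2 := sum_min_ge hN
  rw [prec_eq hk, sum_Spl_gd S hx] at h2
  unfold Light at hL
  refine num_gap hk hl dK_nn sx sy ?_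
  have e : (2 + 1 / (k : ℝ)) * hgt x = 3 * hgt x - (1 - 1 / (k : ℝ)) * hgt x := by ring
  rw [e]
  linarith

theorem card_light {k : ℕ} (hk : 1 ≤ k) {S : Finset (Pr K)} {l : ℝ}
    (hl : 4 * k * (dK K * Real.log 2) < l) (F : Finset K)
    (hF : ∀ x ∈ F, Pt x ∧ Sc k l x ∧ Light k S x) :
    F.card ≤ 2 ^ (99 * k * (Spl S).card) := by
  classical
  have hk0 : (0 : ℝ) < k := by exact_mod_cast hk
  have hl0 : 0 < l := lt_of_le_of_lt (mul_nonneg (by positivity) dK_nn) hl
  have h2l : ∀ x : K, Sc k l x → hgt x ≤ 2 * l := by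
    intro x sx
    refine sx.2.trans (mul_le_mul_of_nonneg_right ?_ hl0.le)
    have : 1 / (4 * (k : ℝ)) ≤ 1 := by
      rw [div_le_one (by positivity)]
      have : (1 : ℝ) ≤ k := by exact_mod_cast hk
      linarith
    linarith
  obtain ⟨f, hf1, hf2⟩ := cells hk S hl0 F fun x hx => ⟨(hF x hx).1, h2l x (hF x hx).2.1⟩
  calc F.card ≤ (Finset.range (2 ^ (99 * k * (Spl S).card))).card := by
        refine Finset.card_le_card_of_injOn f (fun x hx => ?_) ?_
        · exact Finset.mem_coe.2 (Finset.mem_range.2 (hf1 x hx))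
        · intro x hx y hy he
          obtain ⟨a1, a2, a3⟩ := hF x hx
          obtain ⟨b1, b2, b3⟩ := hF y hy
          exact light_inj hk hl a1 b1 a2 b2 a3 (hf2 x hx y hy he)
    _ = _ := Finset.card_range _

theorem three {A B C : Fin 3} (hAB : A ≠ B) (hBC : B ≠ C) (hAC : A ≠ C) (i : Fin 3) :
    i = A ∨ i = B ∨ i = C := by
  revert i A B C
  decide

open Classical in
theorem InP.inj {k : ℕ} (hk : 1 ≤ k) {S : Finset (Pr K)} {A B C : Fin 3} (hAB : A ≠ B)
    (hBC : B ≠ C) (hAC : A ≠ C) {l : ℝ} (hl : 4 * k * (dK K * Real.log 2) < l) {x y : K}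
    {p : Pr K} (hx : Pt x) (hy : Pt y) (sx : Sc k l x) (sy : Sc k l y)
    (h : InP k S A B C x p)
    (he : df (Sum.inr p : Pl K) B x = df (Sum.inr p : Pl K) B y)
    (hN : Near S (l / (16 * k * (Spl S).card)) x y) : x = y := by
  by_contra hne
  have hk0 : (0 : ℝ) < k := by exact_mod_cast hk
  have hpS : (Sum.inr p : Pl K) ∉ Spl S := by
    rw [inr_mem_Spl]
    exact h.pS
  have h1 := gapK hx hy hne (insert (Sum.inr p : Pl K) (Spl S))
  rw [Finset.sum_insert hpS] at h1
  have h2 := sum_min_ge hN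
  rw [prec_eq hk, sum_Spl_gd S hx] at h2
  have h3 : df (Sum.inr p : Pl K) B x ≤
      ∑ i, min (df (Sum.inr p : Pl K) i x) (df (Sum.inr p : Pl K) i y) := by
    have h4 := Finset.single_le_sum (s := (Finset.univ : Finset (Fin 3)))
      (f := fun i => min (df (Sum.inr p : Pl K) i x) (df (Sum.inr p : Pl K) i y))
      (fun i _ => le_min (df_nonneg _ i hx) (df_nonneg _ i hy)) (Finset.mem_univ B)
    refine le_trans ?_ h4
    exact le_min le_rfl he.le
  -- the part outside `S`
  have h5 : out S x ≤ df (Sum.inr p : Pl K) B x + ((hgt x - aw A x) -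
      ∑ v ∈ S, df (Sum.inr v : Pl K) A x) := by
    have hdis : ∀ v ∈ sp x \ S, v = p ∨ v ∈ side A x \ S := by
      intro v hv
      obtain ⟨hv1, hv2⟩ := Finset.mem_sdiff.1 hv
      obtain ⟨i, hi⟩ := (mem_sp_iff hx v).1 hv1
      have hiABC : i = A ∨ i = B ∨ i = C := three hAB hBC hAC i
      rcases hiABC with rfl | rfl | rfl
      · exact Or.inr (Finset.mem_sdiff.2 ⟨hi, hv2⟩)
      · rcases Finset.mem_insert.1 (h.fB hi) with h6 | h6
        · exact Or.inl h6
        · exact absurd h6 hv2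
      · exact absurd (h.fC hi) hv2
    have h6 : out S x ≤ ∑ v ∈ insert p (side A x \ S), gd (Sum.inr v : Pl K) x := by
      unfold out
      refine Finset.sum_le_sum_of_subset_of_nonneg ?_ fun v _ _ => gd_nonneg _ hx
      intro v hv
      rcases hdis v (by convert hv) with rfl | h7
      · exact Finset.mem_insert_self _ _
      · exact Finset.mem_insert_of_mem h7
    have hpA : p ∉ side A x \ S := by
      intro h7
      exact hAB (side_uniq (Finset.mem_sdiff.1 h7).1 h.pB)
    rw [Finset.sum_insert hpA, gd_eq hx h.pB] at h6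
    refine h6.trans (add_le_add le_rfl ?_)
    have h7 : ∑ v ∈ side A x \ S, gd (Sum.inr v : Pl K) x =
        ∑ v ∈ side A x \ S, df (Sum.inr v : Pl K) A x :=
      Finset.sum_congr rfl fun v hv => gd_eq hx (Finset.mem_sdiff.1 hv).1
    rw [h7]
    have h8 := side_sum hx A
    have h9 : ∑ v ∈ side A x, df (Sum.inr v : Pl K) A x =
        ∑ v ∈ side A x ∩ S, df (Sum.inr v : Pl K) A x +
          ∑ v ∈ side A x \ S, df (Sum.inr v : Pl K) A x :=
      (Finset.sum_inter_add_sum_sdiff _ _ _).symm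
    have h10 : ∑ v ∈ side A x ∩ S, df (Sum.inr v : Pl K) A x =
        ∑ v ∈ S, df (Sum.inr v : Pl K) A x := by
      refine Finset.sum_subset Finset.inter_subset_right fun v hv hv' => ?_
      exact df_eq_zero hx fun h11 => hv' (Finset.mem_inter.2 ⟨h11, hv⟩)
    linarith
  have hwt := h.wt
  refine num_gap hk hl dK_nn sx sy ?_
  have e : (2 + 1 / (k : ℝ)) * hgt x = 2 * hgt x + hgt x / k := by ring
  rw [e]
  have hwt' : hgt x / k ≤ aw A x + ∑ v ∈ S, df (Sum.inr v : Pl K) A x := hwt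
  linarith

end Pool.Agent.TH876.KR
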