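import Mathlib
import Pool.Agent.TH876.KR.Def

set_option autoImplicit false

/-!
# Points of small height: Rankin's method (helper263, job KR-11 of helper876)
-/

namespace Pool.Agent.TH876.KR

open NumberField IsDedekindDomain Finset Pool.Agent.H691R3 Pool.Agent.TH876.Loc

variable {K : Type} [Field K] [NumberField K]

/-- sums of negative powers of the norms -/
theorem sum_Nv_rpow_le {s : ℝ} (hs : 1 < s) (P : Finset (Pr K)) :
    ∑ v ∈ P, Nv v ^ (-s) ≤ (Module.finrank ℚ K : ℝ) * ∑' n : ℕ, ((n : ℝ) ^ s)⁻¹ := by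
  classical
  have hsum : Summable fun n : ℕ => ((n : ℝ) ^ s)⁻¹ := Real.summable_nat_rpow_inv.2 hs
  calc ∑ v ∈ P, Nv v ^ (-s) ≤ ∑ v ∈ P, ((pv v : ℝ) ^ s)⁻¹ := by
        refine Finset.sum_le_sum fun v _ => ?_
        rw [Real.rpow_neg (Nv_pos v).le]
        have h1 : (0 : ℝ) < pv v := by exact_mod_cast (pv_prime v).pos
        exact inv_anti₀ (by positivity) (Real.rpow_le_rpow h1.le (pv_le_Nv v) (by linarith))
    _ = ∑ p ∈ P.image pv, ((P.filter fun v => pv v = p).card : ℝ) * ((p : ℝ) ^ s)⁻¹ := by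
        rw [Finset.sum_comp (fun p : ℕ => ((p : ℝ) ^ s)⁻¹) pv]
        simp only [nsmul_eq_mul]
    _ ≤ ∑ p ∈ P.image pv, (Module.finrank ℚ K : ℝ) * ((p : ℝ) ^ s)⁻¹ := by
        refine Finset.sum_le_sum fun p _ => ?_
        refine mul_le_mul_of_nonneg_right ?_ (by positivity)
        exact_mod_cast card_above p _ fun v hv => (Finset.mem_filter.1 hv).2
    _ = (Module.finrank ℚ K : ℝ) * ∑ p ∈ P.image pv, ((p : ℝ) ^ s)⁻¹ := by rw [Finset.mul_sum]
    _ ≤ _ := by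
        refine mul_le_mul_of_nonneg_left ?_ (Nat.cast_nonneg _)
        exact hsum.sum_le_tsum _ (fun n _ => by positivity)

theorem y_lt {σ : ℝ} (hσ : 0 < σ) (v : Pr K) : Nv v ^ (-σ) < 1 :=
  Real.rpow_lt_one_of_one_lt_of_neg (by linarith [two_le_Nv v]) (by linarith)

/-- `y / (1 - y) ≤ 2 / σ` for `y = N(v) ^ (-σ)` -/
theorem y_bound {σ : ℝ} (hσ : 0 < σ) (v : Pr K) :
    Nv v ^ (-σ) * (1 - Nv v ^ (-σ))⁻¹ ≤ 2 / σ := by
  have hp0 := Nv_pos v
  have hy := y_lt hσ v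
  have hy0 : 0 < Nv v ^ (-σ) := Real.rpow_pos_of_pos hp0 _
  have l2a := Real.log_two_gt_d9
  have hlog : 1 / 2 ≤ Real.log (Nv v) := by
    have : Real.log 2 ≤ Real.log (Nv v) := Real.log_le_log (by norm_num) (two_le_Nv v)
    linarith
  obtain ⟨u, hu⟩ : ∃ u, u = σ * Real.log (Nv v) := ⟨_, rfl⟩
  have hyu : Nv v ^ (-σ) = Real.exp (-u) := by
    rw [Real.rpow_def_of_pos hp0, hu]
    congr 1
    ring
  have hu0 : σ / 2 ≤ u := by rw [hu]; nlinarith
  have h1 : Real.exp (-u) * (1 + u) ≤ 1 := by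
    have h2 := Real.add_one_le_exp u
    have h3 : Real.exp (-u) * Real.exp u = 1 := by rw [← Real.exp_add]; simp
    have h4 := Real.exp_pos (-u)
    nlinarith
  rw [← div_eq_mul_inv, div_le_div_iff₀ (by linarith) hσ, hyu]
  have h4 := Real.exp_pos (-u)
  nlinarith

theorem one_add_le_exp {x β : ℝ} (hx : 0 ≤ x) (hβ : 0 < β) (hβ1 : β ≤ 1) :
    1 + x ≤ Real.exp (x ^ β / β) := by
  have h1 : (1 + x) ^ β ≤ Real.exp (x ^ β) := by
    refine (Real.rpow_add_le_add_rpow zero_le_one hx hβ.le hβ1).trans ?_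
    rw [Real.one_rpow, add_comm]
    exact Real.add_one_le_exp _
  have h2 : ((1 + x) ^ β) ^ (1 / β) ≤ (Real.exp (x ^ β)) ^ (1 / β) :=
    Real.rpow_le_rpow (by positivity) h1 (by positivity)
  rw [← Real.rpow_mul (by positivity), mul_one_div_cancel hβ.ne', Real.rpow_one,
    ← Real.exp_mul] at h2
  rwa [mul_one_div] at h2

/-- the weight of an exponent -/
noncomputable def wt (σ a : ℝ) (v : Pr K) (m : ℕ) : ℝ :=
  (if m = 0 then 1 else Nv v ^ (-a)) * (Nv v ^ (-σ)) ^ m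

theorem wt_nonneg (σ a : ℝ) (v : Pr K) (m : ℕ) : 0 ≤ wt σ a v m := by
  have h := Nv_pos v
  unfold wt
  split_ifs <;> positivity

theorem wt_eq (σ a : ℝ) (v : Pr K) (m : ℕ) : wt σ a v m =
    Real.exp (-(a * (if m = 0 then 0 else Real.log (Nv v))) - σ * (m * Real.log (Nv v))) := by
  have h := Nv_pos v
  unfold wt
  rw [Real.rpow_def_of_pos h, Real.rpow_def_of_pos h, ← Real.exp_nat_mul]
  split_ifs
  · rw [one_mul]; congr 1; ring
  · rw [← Real.exp_add]; congr 1; ring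

theorem wt_sum_le {σ : ℝ} (a : ℝ) (hσ : 0 < σ) (v : Pr K) (N : ℕ) :
    ∑ m ∈ range (N + 1), wt σ a v m ≤ 1 + (2 / σ) * Nv v ^ (-a) := by
  have hp := Nv_pos v
  have hy := y_lt hσ v
  have hy0 : 0 < Nv v ^ (-σ) := Real.rpow_pos_of_pos hp _
  have ha0 : 0 < Nv v ^ (-a) := Real.rpow_pos_of_pos hp _
  rw [Finset.sum_range_succ']
  have h0 : wt σ a v 0 = 1 := by simp [wt]
  have h1 : ∑ m ∈ range N, wt σ a v (m + 1) =
      Nv v ^ (-a) * (Nv v ^ (-σ) * ∑ m ∈ range N, (Nv v ^ (-σ)) ^ m) := by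
    rw [Finset.mul_sum, Finset.mul_sum]
    refine Finset.sum_congr rfl fun m _ => ?_
    unfold wt
    rw [if_neg (Nat.succ_ne_zero m), pow_succ]
    ring
  have h2 : ∑ m ∈ range N, (Nv v ^ (-σ)) ^ m ≤ (1 - Nv v ^ (-σ))⁻¹ := by
    rw [← tsum_geometric_of_lt_one hy0.le hy]
    exact (summable_geometric_of_lt_one hy0.le hy).sum_le_tsum _ fun m _ => by positivity
  have h3 : Nv v ^ (-σ) * ∑ m ∈ range N, (Nv v ^ (-σ)) ^ m ≤ 2 / σ :=
    (mul_le_mul_of_nonneg_left h2 hy0.le).trans (y_bound hσ v)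
  rw [h0, h1]
  nlinarith

open Classical in
/-- Rankin's bound -/
theorem pi_sum_le {σ a β : ℝ} (hσ : 0 < σ) (hβ : 0 < β) (hβ1 : β ≤ 1) (haβ : 1 < a * β)
    (P : Finset (Pr K)) (N : ℕ) :
    ∑ f ∈ Fintype.piFinset (fun _ : P => range (N + 1)), ∏ v : P, wt σ a v.1 (f v) ≤
      Real.exp ((2 / σ) ^ β * ((Module.finrank ℚ K : ℝ) * ∑' n : ℕ, ((n : ℝ) ^ (a * β))⁻¹) / β) := by
  classical
  rw [← Finset.prod_univ_sum (fun _ : P => range (N + 1)) (fun v m => wt σ a v.1 m)]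
  have h1 : ∀ v : P, ∑ m ∈ range (N + 1), wt σ a v.1 m ≤
      Real.exp ((2 / σ) ^ β * Nv v.1 ^ (-(a * β)) / β) := by
    intro v
    have hp := Nv_pos v.1
    refine (wt_sum_le a hσ v.1 N).trans ((one_add_le_exp (by positivity) hβ hβ1).trans
      (le_of_eq ?_))
    congr 2
    rw [Real.mul_rpow (by positivity) (by positivity), ← Real.rpow_mul hp.le, neg_mul]
  refine (Finset.prod_le_prod (fun v _ => Finset.sum_nonneg fun m _ => wt_nonneg _ _ _ _)
    (fun v _ => h1 v)).trans ?_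
  rw [← Real.exp_sum]
  refine Real.exp_le_exp.2 ?_
  rw [← Finset.sum_div, ← Finset.mul_sum]
  refine div_le_div_of_nonneg_right (mul_le_mul_of_nonneg_left ?_ (by positivity)) hβ.le
  rw [Finset.sum_coe_sort P (fun v => Nv v ^ (-(a * β)))]
  exact sum_Nv_rpow_le haβ P

/-- the exponent of a defect -/
noncomputable def ex (i : Fin 3) (x : K) (v : Pr K) : ℕ :=
  ⌊df (Sum.inr v : Pl K) i x / Real.log (Nv v)⌋₊

theorem df_ex {x : K} (hx : Pt x) (i : Fin 3) (v : Pr K) :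
    df (Sum.inr v : Pl K) i x = ex i x v * Real.log (Nv v) := by
  obtain ⟨m, hm⟩ := df_int hx v i
  unfold ex
  rw [hm, mul_div_assoc, div_self (log_Nv_pos' v).ne', mul_one, Nat.floor_natCast]

theorem ex_eq_zero {x : K} (hx : Pt x) (i : Fin 3) (v : Pr K) : ex i x v = 0 ↔ v ∉ side i x := by
  rw [mem_side hx, df_ex hx]
  constructor
  · intro h; rw [h]; simp
  · intro h
    by_contra hne
    apply h
    have : (0 : ℝ) < ex i x v := by exact_mod_cast Nat.pos_of_ne_zero hne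
    exact mul_pos this (log_Nv_pos' v)

theorem sum_side_le {x : K} (hx : Pt x) (i : Fin 3) :
    ∑ v ∈ side i x, df (Sum.inr v : Pl K) i x ≤ hgt x := by
  have h1 := side_sum hx i
  have h2 := aw_nonneg hx i
  linarith

/-- the weight of the exponents of a side -/
theorem prod_wt {σ a : ℝ} {x : K} (hx : Pt x) (i : Fin 3) {P : Finset (Pr K)} (hP : sp x ⊆ P) :
    ∏ v : P, wt σ a v.1 (ex i x v.1) =
      Real.exp (-(a * rr i x) - σ * ∑ v ∈ side i x, df (Sum.inr v : Pl K) i x) := by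
  classical
  rw [Finset.prod_coe_sort P (fun v => wt σ a v (ex i x v))]
  simp only [wt_eq]
  rw [← Real.exp_sum, Finset.sum_sub_distrib, Finset.sum_neg_distrib, ← Finset.mul_sum,
    ← Finset.mul_sum]
  have hs : side i x ⊆ P := (side_sub i x).trans hP
  congr 3
  · congr 1
    unfold rr
    rw [← Finset.sum_subset hs]
    · refine Finset.sum_congr rfl fun v hv => ?_
      rw [if_neg]
      rw [ex_eq_zero hx]
      exact fun h => h hv
    · intro v _ hv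
      rw [if_pos ((ex_eq_zero hx i v).2 hv)]
  · rw [← Finset.sum_subset hs]
    · exact Finset.sum_congr rfl fun v _ => (df_ex hx i v).symm
    · intro v _ hv
      rw [(ex_eq_zero hx i v).2 hv]
      simp

theorem ex_le {x : K} (hx : Pt x) (i : Fin 3) (v : Pr K) {B : ℝ} (hB : hgt x ≤ B) :
    ex i x v ≤ ⌊2 * B⌋₊ := by
  refine Nat.le_floor ?_
  by_cases hv : v ∈ side i x
  · have h1 : df (Sum.inr v : Pl K) i x ≤ ∑ v ∈ side i x, df (Sum.inr v : Pl K) i x :=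
      Finset.single_le_sum (f := fun v => df (Sum.inr v : Pl K) i x)
        (fun v _ => df_nonneg _ i hx) hv
    have h2 := sum_side_le hx i
    rw [df_ex hx] at h1
    have h3 : 1 / 2 ≤ Real.log (Nv v) := by
      have : Real.log 2 ≤ Real.log (Nv v) := Real.log_le_log (by norm_num) (two_le_Nv v)
      have := Real.log_two_gt_d9
      linarith
    have h4 : (0 : ℝ) ≤ ex i x v := Nat.cast_nonneg _
    nlinarith
  · rw [(ex_eq_zero hx i v).2 hv, Nat.cast_zero]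
    have h2 := sum_side_le hx i
    have h3 : 0 ≤ ∑ v ∈ side i x, df (Sum.inr v : Pl K) i x :=
      Finset.sum_nonneg fun v _ => df_nonneg _ i hx
    linarith

variable (K) in
/-- the statement of `fiber_small` (job KR-10) -/
def FiberSmall : Prop := ∃ C : ℝ, 1 ≤ C ∧ ∀ B : ℝ, 1 ≤ B → ∀ i j : Fin 3, i ≠ j → ∀ F : Finset K,
    (∀ x ∈ F, Pt x ∧ hgt x ≤ B) →
    (∀ x ∈ F, ∀ y ∈ F, ∀ v : Pr K, df (Sum.inr v : Pl K) i x = df (Sum.inr v : Pl K) i y ∧
      df (Sum.inr v : Pl K) j x = df (Sum.inr v : Pl K) j y) →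
    (F.card : ℝ) ≤ C * B ^ C

open Classical in
/-- the points for which two given sides have a small radical -/
theorem pair_count {C a L B σ V : ℝ} (ha : 0 ≤ a) (hσ : 0 ≤ σ) (hC : 1 ≤ C) (hB : 1 ≤ B)
    {i j : Fin 3}
    (hfib : ∀ F : Finset K, (∀ x ∈ F, Pt x ∧ hgt x ≤ B) →
      (∀ x ∈ F, ∀ y ∈ F, ∀ v : Pr K, df (Sum.inr v : Pl K) i x = df (Sum.inr v : Pl K) i y ∧
        df (Sum.inr v : Pl K) j x = df (Sum.inr v : Pl K) j y) → (F.card : ℝ) ≤ C * B ^ C)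
    (hV : ∀ P : Finset (Pr K), ∑ f ∈ Fintype.piFinset (fun _ : P => range (⌊2 * B⌋₊ + 1)),
      ∏ v : P, wt σ a v.1 (f v) ≤ V)
    (F : Finset K) (hF : ∀ x ∈ F, Pt x ∧ hgt x ≤ B ∧ rr i x + rr j x ≤ 2 / 3 * L) :
    (F.card : ℝ) ≤ C * B ^ C * (Real.exp (2 / 3 * a * L + 2 * σ * B) * V ^ 2) := by
  classical
  obtain ⟨P, hP⟩ : ∃ P : Finset (Pr K), P = F.biUnion sp := ⟨_, rfl⟩
  have hsub : ∀ x ∈ F, sp x ⊆ P := by
    intro x hx
    rw [hP]
    exact Finset.subset_biUnion_of_mem sp hx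
  have hV := hV P
  set G : Finset (P → ℕ) := Fintype.piFinset (fun _ : P => range (⌊2 * B⌋₊ + 1)) with hG
  set H : (P → ℕ) → ℝ := fun f => ∏ v : P, wt σ a v.1 (f v) with hH
  have hH0 : ∀ f, 0 ≤ H f := fun f => Finset.prod_nonneg fun v _ => wt_nonneg _ _ _ _
  set φ : K → (P → ℕ) × (P → ℕ) := fun x => (fun v => ex i x v.1, fun v => ex j x v.1) with hφ
  have hBC : 0 ≤ C * B ^ C := by positivity
  -- fibres
  have h1 : ∀ b ∈ F.image φ, (((F.filter fun x => φ x = b).card : ℕ) : ℝ) ≤ C * B ^ C := by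
    intro b _
    refine hfib _ (fun x hx => ?_) ?_
    · obtain ⟨c1, _⟩ := Finset.mem_filter.1 hx
      exact ⟨(hF x c1).1, (hF x c1).2.1⟩
    · intro x hx y hy v
      obtain ⟨c1, c2⟩ := Finset.mem_filter.1 hx
      obtain ⟨d1, d2⟩ := Finset.mem_filter.1 hy
      have e : φ x = φ y := c2.trans d2.symm
      simp only [hφ, Prod.mk.injEq] at e
      by_cases hv : v ∈ P
      · have e1 := congrFun e.1 ⟨v, hv⟩
        have e2 := congrFun e.2 ⟨v, hv⟩
        simp only at e1 e2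
        rw [df_ex (hF x c1).1, df_ex (hF y d1).1, df_ex (hF x c1).1, df_ex (hF y d1).1, e1, e2]
        exact ⟨rfl, rfl⟩
      · have k : ∀ z ∈ F, ∀ l, df (Sum.inr v : Pl K) l z = 0 := by
          intro z hz l
          exact df_eq_zero (hF z hz).1 fun h => hv (hsub z hz (side_sub l z h))
        rw [k x c1, k y d1, k x c1, k y d1]
        exact ⟨rfl, rfl⟩
  have h2 : (F.card : ℝ) ≤ C * B ^ C * ((F.image φ).card : ℝ) := by
    rw [Finset.card_eq_sum_card_image φ F, Nat.cast_sum]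
    refine (Finset.sum_le_sum h1).trans ?_
    rw [Finset.sum_const, nsmul_eq_mul, mul_comm]
  refine h2.trans (mul_le_mul_of_nonneg_left ?_ hBC)
  -- weights
  have h3 : ∀ b ∈ F.image φ, (1 : ℝ) ≤ Real.exp (2 / 3 * a * L + 2 * σ * B) * (H b.1 * H b.2) := by
    intro b hb
    obtain ⟨x, hx, rfl⟩ := Finset.mem_image.1 hb
    obtain ⟨c1, c2, c3⟩ := hF x hx
    simp only [hφ, hH]
    rw [prod_wt c1 i (hsub x hx), prod_wt c1 j (hsub x hx), ← Real.exp_add, ← Real.exp_add,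
      Real.one_le_exp_iff]
    have k1 := mul_le_mul_of_nonneg_left ((sum_side_le c1 i).trans c2) hσ
    have k2 := mul_le_mul_of_nonneg_left ((sum_side_le c1 j).trans c2) hσ
    nlinarith
  have h4 : ((F.image φ).card : ℝ) ≤
      ∑ b ∈ F.image φ, Real.exp (2 / 3 * a * L + 2 * σ * B) * (H b.1 * H b.2) := by
    rw [Finset.card_eq_sum_ones, Nat.cast_sum]
    exact Finset.sum_le_sum fun b hb => by rw [Nat.cast_one]; exact h3 b hb
  refine h4.trans ?_
  rw [← Finset.mul_sum]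
  refine mul_le_mul_of_nonneg_left ?_ (Real.exp_pos _).le
  have h5 : ∑ b ∈ F.image φ, H b.1 * H b.2 ≤ (∑ f ∈ G, H f) ^ 2 := by
    rw [sq, Finset.sum_mul_sum, ← Finset.sum_product']
    refine Finset.sum_le_sum_of_subset_of_nonneg ?_ fun b _ _ => mul_nonneg (hH0 _) (hH0 _)
    intro b hb
    obtain ⟨x, hx, rfl⟩ := Finset.mem_image.1 hb
    obtain ⟨c1, c2, _⟩ := hF x hx
    rw [Finset.mem_product, hG, Fintype.mem_piFinset, Fintype.mem_piFinset]
    exact ⟨fun v => Finset.mem_range.2 (Nat.lt_succ_of_le (ex_le c1 i v.1 c2)),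
      fun v => Finset.mem_range.2 (Nat.lt_succ_of_le (ex_le c1 j v.1 c2))⟩
  refine h5.trans (pow_le_pow_left₀ (Finset.sum_nonneg fun f _ => hH0 f) hV 2)

/-- powers are small compared with exponentials -/
theorem rpow_le_exp {c δ : ℝ} (hc : 0 < c) (hδ : 0 < δ) : ∃ D : ℝ, 0 < D ∧ ∀ L : ℝ, 1 ≤ L →
    L ^ c ≤ D * Real.exp (δ * L) := by
  refine ⟨Real.exp (c * (-1 - Real.log (δ / c))), Real.exp_pos _, fun L hL => ?_⟩
  have hL0 : 0 < L := by linarith
  rw [Real.rpow_def_of_pos hL0, ← Real.exp_add]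
  refine Real.exp_le_exp.2 ?_
  have h1 := Real.log_le_sub_one_of_pos (show 0 < δ / c * L by positivity)
  rw [Real.log_mul (by positivity) hL0.ne'] at h1
  have h2 := mul_le_mul_of_nonneg_left h1 hc.le
  have h3 : c * (δ / c * L - 1) = δ * L - c := by field_simp
  nlinarith

variable (K) in
/-- **points of small height** -/
theorem small_total (hfib : FiberSmall K) (ε : ℝ) (hε : 0 < ε) :
    ∃ η : ℝ, 0 < η ∧ ∃ L1 : ℝ, 1 ≤ L1 ∧ ∃ C : ℝ, 0 < C ∧
    ∀ X : ℝ, 1 ≤ X → L1 ≤ Real.log X → ∀ F : Finset K,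
      (∀ x ∈ F, Pt x ∧ nn (sp x) ≤ X ∧ hgt x ≤ Real.log X ^ (2 + η)) →
      (F.card : ℝ) ≤ C * X ^ (2 / 3 + ε) := by
  classical
  obtain ⟨C0, hC0, hfib⟩ := hfib
  obtain ⟨θ, hθ⟩ : ∃ θ : ℝ, θ = ε / 2 := ⟨_, rfl⟩
  have hθ0 : 0 < θ := by rw [hθ]; positivity
  obtain ⟨β, hβ⟩ : ∃ β : ℝ, β = 1 / (1 + θ / 2) := ⟨_, rfl⟩
  have hβ0 : 0 < β := by rw [hβ]; positivity
  have hβ1 : β ≤ 1 := by
    rw [hβ, div_le_one (by positivity)]; linarith
  have haβ : 1 < (1 + θ) * β := by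
    rw [hβ, mul_one_div, lt_div_iff₀ (by positivity)]; linarith
  obtain ⟨η, hη⟩ : ∃ η : ℝ, η = θ / 4 := ⟨_, rfl⟩
  have hη0 : 0 < η := by rw [hη]; positivity
  have hγ : (1 + η) * β < 1 := by
    rw [hβ, mul_one_div, div_lt_one (by positivity), hη]; linarith
  obtain ⟨Z, hZ⟩ : ∃ Z : ℝ, Z = (Module.finrank ℚ K : ℝ) *
    ∑' n : ℕ, ((n : ℝ) ^ ((1 + θ) * β))⁻¹ := ⟨_, rfl⟩
  have hZ0 : 0 ≤ Z := by
    rw [hZ]; exact mul_nonneg (Nat.cast_nonneg _) (tsum_nonneg fun n => by positivity)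
  -- the threshold for `L`
  obtain ⟨W, hW⟩ : ∃ W : ℝ, W = (32 / ε) ^ β * Z / β * (16 / ε) := ⟨_, rfl⟩
  have hW0 : 0 ≤ W := by rw [hW]; positivity
  obtain ⟨γ, hγd⟩ : ∃ γ : ℝ, γ = 1 - (1 + η) * β := ⟨_, rfl⟩
  have hγ0 : 0 < γ := by rw [hγd]; linarith
  obtain ⟨D, hD0, hD⟩ := rpow_le_exp (c := (2 + η) * C0) (δ := ε / 4) (by positivity)
    (by positivity)
  refine ⟨η, hη0, max 1 (W ^ (1 / γ)), le_max_left _ _, 3 * (C0 * D), by positivity,
    fun X hX hL F hF => ?_⟩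
  obtain ⟨L, hLd⟩ : ∃ L, L = Real.log X := ⟨_, rfl⟩
  rw [← hLd] at hL hF
  have hL1 : 1 ≤ L := (le_max_left _ _).trans hL
  have hL0 : 0 < L := by linarith
  have hX0 : 0 < X := by linarith
  have hWL : W ≤ L ^ γ := by
    have h1 : (W ^ (1 / γ)) ^ γ ≤ L ^ γ :=
      Real.rpow_le_rpow (by positivity) ((le_max_right _ _).trans hL) hγ0.le
    rwa [← Real.rpow_mul hW0, one_div_mul_cancel hγ0.ne', Real.rpow_one] at h1
  obtain ⟨σ, hσ⟩ : ∃ σ : ℝ, σ = ε / 16 * L ^ (-(1 + η)) := ⟨_, rfl⟩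
  have hσ0 : 0 < σ := by rw [hσ]; positivity
  obtain ⟨B, hB⟩ : ∃ B : ℝ, B = L ^ (2 + η) := ⟨_, rfl⟩
  have hB1 : 1 ≤ B := by
    rw [hB]; exact Real.one_le_rpow hL1 (by linarith)
  have hσB : σ * B = ε / 16 * L := by
    rw [hσ, hB, mul_assoc, ← Real.rpow_add hL0]
    have : -(1 + η) + (2 + η) = 1 := by ring
    rw [this, Real.rpow_one]
  have h4 : (2 / σ) ^ β * Z / β ≤ ε / 16 * L := by
    have e1 : 2 / σ = 32 / ε * L ^ (1 + η) := by
      rw [hσ, Real.rpow_neg hL0.le]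
      field_simp
      norm_num
    rw [e1, Real.mul_rpow (by positivity) (by positivity), ← Real.rpow_mul hL0.le]
    have e2 : L = L ^ ((1 + η) * β) * L ^ γ := by
      rw [← Real.rpow_add hL0, hγd]
      have : (1 + η) * β + (1 - (1 + η) * β) = 1 := by ring
      rw [this, Real.rpow_one]
    have e3 : (32 / ε) ^ β * L ^ ((1 + η) * β) * Z / β =
        ε / 16 * (L ^ ((1 + η) * β) * W) := by
      rw [hW]
      field_simp
    rw [e3]
    conv_rhs => rw [e2]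
    refine mul_le_mul_of_nonneg_left ?_ (by positivity)
    exact mul_le_mul_of_nonneg_left hWL (by positivity)
  have hV : ∀ P : Finset (Pr K), ∑ f ∈ Fintype.piFinset (fun _ : P => range (⌊2 * B⌋₊ + 1)),
      ∏ v : P, wt σ (1 + θ) v.1 (f v) ≤ Real.exp (ε / 16 * L) := by
    intro P
    refine (pi_sum_le hσ0 hβ0 hβ1 haβ P _).trans (Real.exp_le_exp.2 ?_)
    rw [← hZ]
    exact h4
  have hBC : B ^ C0 ≤ D * Real.exp (ε / 4 * L) := by
    rw [hB, ← Real.rpow_mul hL0.le]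
    exact hD L hL1
  have hpair : ∀ i j : Fin 3, i ≠ j →
      ((F.filter fun x => rr i x + rr j x ≤ 2 / 3 * L).card : ℝ) ≤ C0 * D * X ^ (2 / 3 + ε) := by
    intro i j hij
    have h1 := pair_count (a := 1 + θ) (L := L) (by positivity) hσ0.le hC0 hB1
      (fun F h1 h2 => hfib B hB1 i j hij F h1 h2) hV
      (F.filter fun x => rr i x + rr j x ≤ 2 / 3 * L) (fun x hx => by
        obtain ⟨b1, b2⟩ := Finset.mem_filter.1 hx
        obtain ⟨c1, _, c3⟩ := hF x b1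
        refine ⟨c1, ?_, b2⟩
        rw [hB]
        exact c3)
    refine h1.trans ?_
    have h5 : Real.exp (2 / 3 * (1 + θ) * L + 2 * σ * B) * Real.exp (ε / 16 * L) ^ 2 =
        Real.exp (2 / 3 * (1 + θ) * L + ε / 4 * L) := by
      rw [← Real.exp_nat_mul, ← Real.exp_add]
      congr 1
      push_cast
      linear_combination 2 * hσB
    rw [h5]
    calc C0 * B ^ C0 * Real.exp (2 / 3 * (1 + θ) * L + ε / 4 * L) ≤
        C0 * (D * Real.exp (ε / 4 * L)) * Real.exp (2 / 3 * (1 + θ) * L + ε / 4 * L) := by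
          refine mul_le_mul_of_nonneg_right ?_ (Real.exp_pos _).le
          exact mul_le_mul_of_nonneg_left hBC (by linarith)
      _ = C0 * D * Real.exp (ε / 4 * L + (2 / 3 * (1 + θ) * L + ε / 4 * L)) := by
          rw [Real.exp_add (ε / 4 * L)]; ring
      _ ≤ C0 * D * Real.exp (L * (2 / 3 + ε)) := by
          refine mul_le_mul_of_nonneg_left (Real.exp_le_exp.2 ?_) (by positivity)
          rw [hθ]
          nlinarith
      _ = C0 * D * X ^ (2 / 3 + ε) := by rw [Real.rpow_def_of_pos hX0, hLd]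
  have hcover : F ⊆ ((F.filter fun x => rr 0 x + rr 1 x ≤ 2 / 3 * L) ∪
      (F.filter fun x => rr 0 x + rr 2 x ≤ 2 / 3 * L)) ∪
      (F.filter fun x => rr 1 x + rr 2 x ≤ 2 / 3 * L) := by
    intro x hx
    obtain ⟨c1, c2, _⟩ := hF x hx
    have hr : rr 0 x + rr 1 x + rr 2 x ≤ L := by
      rw [rr_sum' c1, hLd]
      exact Real.log_le_log (nn_pos _) c2
    by_cases h1 : rr 0 x + rr 1 x ≤ 2 / 3 * L
    · exact Finset.mem_union_left _ (Finset.mem_union_left _ (Finset.mem_filter.2 ⟨hx, h1⟩))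
    · by_cases h2 : rr 0 x + rr 2 x ≤ 2 / 3 * L
      · exact Finset.mem_union_left _ (Finset.mem_union_right _ (Finset.mem_filter.2 ⟨hx, h2⟩))
      · refine Finset.mem_union_right _ (Finset.mem_filter.2 ⟨hx, ?_⟩)
        push Not at h1 h2
        linarith
  have h1 := (Finset.card_le_card hcover).trans ((Finset.card_union_le _ _).trans
    (Nat.add_le_add_right (Finset.card_union_le _ _) _))
  have h2 : (F.card : ℝ) ≤ ((F.filter fun x => rr 0 x + rr 1 x ≤ 2 / 3 * L).card : ℝ) +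
      ((F.filter fun x => rr 0 x + rr 2 x ≤ 2 / 3 * L).card : ℝ) +
      ((F.filter fun x => rr 1 x + rr 2 x ≤ 2 / 3 * L).card : ℝ) := by exact_mod_cast h1
  have a1 := hpair 0 1 (by decide)
  have a2 := hpair 0 2 (by decide)
  have a3 := hpair 1 2 (by decide)
  linarith

end Pool.Agent.TH876.KR
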