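import Pool.Agent.TH876.KR.Scale
import Pool.Agent.TH876.KR.Small
import Pool.Agent.TH876.KR.Fiber
import Pool.Agent.TH876.Main

set_option autoImplicit false

/-!
# The number of points with small radical over a number field, with the sharp exponent
-/

namespace Pool.Agent.TH876.KR

open NumberField IsDedekindDomain Finset Pool.Agent.H691R3 Pool.Agent.TH876.Loc

variable {K : Type} [Field K] [NumberField K]

/-- the ratio of two scales -/
noncomputable def rho (k : ℕ) : ℝ := 1 + 1 / (4 * (k : ℝ))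

theorem rho_gt {k : ℕ} (hk : 1 ≤ k) : 1 < rho k := by
  have hk0 : (0 : ℝ) < k := by exact_mod_cast hk
  unfold rho
  have : 0 < 1 / (4 * (k : ℝ)) := by positivity
  linarith

open Classical in
/-- decomposition into scales -/
theorem scales {k : ℕ} (hk : 1 ≤ k) {l0 H : ℝ} (hl0 : 0 < l0) (hH : l0 ≤ H)
    (F : Finset K) (hF : ∀ x ∈ F, l0 ≤ hgt x ∧ hgt x ≤ H) :
    ∃ J : ℕ, l0 * rho k ^ J ≤ H ∧
      F.card ≤ ∑ j ∈ Finset.range (J + 1), (F.filter fun x => Sc k (l0 * rho k ^ j) x).card := by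
  have hρ := rho_gt hk
  obtain ⟨J, hJ1, hJ2⟩ := exists_nat_pow_near (x := H / l0) (y := rho k)
    (by rw [le_div_iff₀ hl0]; linarith) hρ
  refine ⟨J, ?_, ?_⟩
  · rw [le_div_iff₀ hl0] at hJ1
    linarith
  · refine (Finset.card_le_card ?_).trans Finset.card_biUnion_le
    intro t ht
    obtain ⟨h1, h2⟩ := hF t ht
    obtain ⟨j, hj1, hj2⟩ := exists_nat_pow_near (x := hgt t / l0) (y := rho k)
      (by rw [le_div_iff₀ hl0]; linarith) hρ
    rw [Finset.mem_biUnion]
    refine ⟨j, ?_, Finset.mem_filter.2 ⟨ht, ?_, ?_⟩⟩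
    · rw [Finset.mem_range]
      have h3 : rho k ^ j < rho k ^ (J + 1) := by
        refine lt_of_le_of_lt (hj1.trans ?_) hJ2
        exact div_le_div_of_nonneg_right h2 hl0.le
      exact (pow_lt_pow_iff_right₀ hρ).1 h3
    · rw [le_div_iff₀ hl0] at hj1
      linarith
    · rw [div_lt_iff₀ hl0, pow_succ] at hj2
      have e : (1 + 1 / (4 * (k : ℝ))) = rho k := rfl
      rw [e]
      linarith

/-- geometric sums -/
theorem geom_le {ρ : ℝ} (hρ : 1 < ρ) (J : ℕ) :
    ∑ j ∈ Finset.range (J + 1), ρ ^ j ≤ ρ / (ρ - 1) * ρ ^ J := by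
  have h0 : 0 < ρ - 1 := by linarith
  rw [geom_sum_eq hρ.ne', div_le_iff₀ h0]
  have h1 : ρ / (ρ - 1) * ρ ^ J * (ρ - 1) = ρ ^ (J + 1) := by
    rw [pow_succ]
    field_simp
  rw [h1]
  linarith

variable (K) in
/-- all heights, for large `X` -/
theorem all_heights (ε : ℝ) (hε : 0 < ε) : ∃ C : ℝ, 0 < C ∧ ∀ X : ℝ, 16 ≤ X → ∀ F : Finset K,
    (∀ x ∈ F, Pt x ∧ nn (sp x) ≤ X) → (F.card : ℝ) ≤ C * X ^ (1 + ε) := by
  obtain ⟨c, k, hc, h⟩ := count_all (Module.finrank ℚ K)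
  -- `(log log X) ^ k / log X ≤ D X ^ ε`
  refine ⟨c * ((k : ℝ) / ε + 1) ^ k, by positivity, ?_⟩
  intro X hX F hF
  have hX0 : 0 < X := by linarith
  have hX1 : 1 ≤ X := by linarith
  have hlf := log_facts hX
  have he1 := Real.exp_one_gt_d9
  have hL1 : 1 ≤ Real.log X := by linarith
  have hL0 : 0 < Real.log X := by linarith
  have h1 := h K rfl X hX F hF
  refine h1.trans ?_
  have hll0 : 0 ≤ Real.log (Real.log X) := Real.log_nonneg hL1
  have hll : Real.log (Real.log X) ≤ Real.log X := Real.log_le_self hL0.le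
  have h2 : Real.log (Real.log X) ^ k ≤ ((k : ℝ) / ε + 1) ^ k * X ^ ε := by
    rcases Nat.eq_zero_or_pos k with hk | hk
    · subst hk
      simp only [pow_zero, one_mul]
      exact Real.one_le_rpow hX1 hε.le
    · have hk0 : (0 : ℝ) < k := by exact_mod_cast hk
      have h3 : Real.log X ≤ X ^ (ε / k) / (ε / k) := Real.log_le_rpow_div hX0.le (by positivity)
      have h4 : X ^ (ε / k) / (ε / k) = k / ε * X ^ (ε / k) := by field_simp
      have h5 : Real.log (Real.log X) ≤ (k / ε + 1) * X ^ (ε / k) := by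
        have h6 : 0 ≤ X ^ (ε / k) := Real.rpow_nonneg hX0.le _
        rw [h4] at h3
        linarith
      refine (pow_le_pow_left₀ hll0 h5 k).trans (le_of_eq ?_)
      rw [mul_pow, ← Real.rpow_natCast (X ^ (ε / k)), ← Real.rpow_mul hX0.le]
      congr 2
      field_simp
  have h3 : c * X / Real.log X ≤ c * X := div_le_self (by positivity) hL1
  calc c * X / Real.log X * Real.log (Real.log X) ^ k ≤
      (c * X) * (((k : ℝ) / ε + 1) ^ k * X ^ ε) :=
        mul_le_mul h3 h2 (pow_nonneg hll0 k) (by positivity)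
    _ = c * ((k : ℝ) / ε + 1) ^ k * (X ^ (1 : ℝ) * X ^ ε) := by rw [Real.rpow_one]; ring
    _ = _ := by rw [← Real.rpow_add hX0]

variable (K) in
/-- **the sharp count** -/
theorem main_count (ε : ℝ) (hε : 0 < ε) : ∃ C : ℝ, 0 < C ∧ ∀ X H : ℝ, 1 ≤ X → 1 ≤ H →
    ∀ F : Finset K, (∀ x ∈ F, Pt x ∧ nn (sp x) ≤ X ∧ hgt x ≤ H) →
      (F.card : ℝ) ≤ C * H * X ^ (2 / 3 + ε) := by
  classical
  obtain ⟨η, hη, L1, hL1, C1, hC1, hsmall⟩ := small_total K (fiber_small K) ε hε
  obtain ⟨k0, hk0⟩ := exists_nat_ge (3 / ε)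
  obtain ⟨k, hkd⟩ : ∃ k, k = max 3 k0 := ⟨_, rfl⟩
  have hk3 : 3 ≤ k := by rw [hkd]; exact le_max_left _ _
  have hk1 : 1 ≤ k := by omega
  have hkp : (0 : ℝ) < k := by positivity
  have hkε : 3 / (k : ℝ) ≤ ε := by
    rw [div_le_iff₀ hkp]
    have h1 : (k0 : ℝ) ≤ k := by
      rw [hkd]; exact_mod_cast le_max_right 3 k0
    rw [div_le_iff₀ hε] at hk0
    nlinarith
  obtain ⟨D, hD, L0, hL0, hscale⟩ := scale_count K hk3 hη
  obtain ⟨C2, hC2, hall⟩ := all_heights K ε hε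
  obtain ⟨X0, hX0d⟩ : ∃ X0 : ℝ, X0 = max 16 (Real.exp (max L0 L1)) := ⟨_, rfl⟩
  have hX016 : 16 ≤ X0 := by rw [hX0d]; exact le_max_left _ _
  have hρ := rho_gt hk1
  have hρ0 : 0 < rho k - 1 := by linarith
  refine ⟨C2 * X0 ^ (1 + ε) + C2 + C1 + D * (rho k / (rho k - 1)), by
    have : 0 < X0 := by linarith
    have : 0 < rho k := by linarith
    positivity, ?_⟩
  intro X H hX hH F hF
  have hXpos : 0 < X := by linarith
  have hHpos : 0 < H := by linarith
  have hX0pos : 0 < X0 := by linarith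
  have hρpos : 0 < rho k := by linarith
  have hP1 : 1 ≤ X ^ (2 / 3 + ε) := Real.one_le_rpow hX (by positivity)
  have hHP : 1 ≤ H * X ^ (2 / 3 + ε) := by nlinarith
  have hHP0 : 0 < H * X ^ (2 / 3 + ε) := by linarith
  have z1 : 0 ≤ C2 * X0 ^ (1 + ε) * (H * X ^ (2 / 3 + ε)) := by positivity
  have z2 : 0 ≤ C2 * (H * X ^ (2 / 3 + ε)) := by positivity
  have z3 : 0 ≤ C1 * (H * X ^ (2 / 3 + ε)) := by positivity
  have z4 : 0 ≤ D * (rho k / (rho k - 1)) * (H * X ^ (2 / 3 + ε)) := by positivity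
  have hgoal : (C2 * X0 ^ (1 + ε) + C2 + C1 + D * (rho k / (rho k - 1))) * H * X ^ (2 / 3 + ε) =
      C2 * X0 ^ (1 + ε) * (H * X ^ (2 / 3 + ε)) + C2 * (H * X ^ (2 / 3 + ε)) +
      C1 * (H * X ^ (2 / 3 + ε)) + D * (rho k / (rho k - 1)) * (H * X ^ (2 / 3 + ε)) := by ring
  rw [hgoal]
  rcases le_or_gt X X0 with hsm | hbig
  · -- small `X`
    have h1 := hall X0 hX016 F fun x hx => ⟨(hF x hx).1, (hF x hx).2.1.trans hsm⟩
    have h2 : C2 * X0 ^ (1 + ε) * 1 ≤ C2 * X0 ^ (1 + ε) * (H * X ^ (2 / 3 + ε)) :=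
      mul_le_mul_of_nonneg_left hHP (by positivity)
    linarith
  have hX16 : 16 ≤ X := by linarith
  have hlogX : max L0 L1 ≤ Real.log X := by
    rw [Real.le_log_iff_exp_le hXpos]
    refine le_trans ?_ hbig.le
    rw [hX0d]
    exact le_max_right _ _
  have hLL0 : L0 ≤ Real.log X := (le_max_left _ _).trans hlogX
  have hLL1 : L1 ≤ Real.log X := (le_max_right _ _).trans hlogX
  rcases le_or_gt H X with hHX | hHX
  swap
  · -- large heights are allowed
    have h1 := hall X hX16 F fun x hx => ⟨(hF x hx).1, (hF x hx).2.1⟩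
    have h2 : X ^ (1 + ε) ≤ H * X ^ (2 / 3 + ε) := by
      have h3 : X ^ (1 + ε) = X ^ ((1 : ℝ) / 3) * X ^ (2 / 3 + ε) := by
        rw [← Real.rpow_add hXpos]
        congr 1
        ring
      rw [h3]
      refine mul_le_mul_of_nonneg_right ?_ (by positivity)
      calc X ^ ((1 : ℝ) / 3) ≤ X ^ (1 : ℝ) :=
            Real.rpow_le_rpow_of_exponent_le hX (by norm_num)
        _ = X := Real.rpow_one X
        _ ≤ H := hHX.le
    have h3 := mul_le_mul_of_nonneg_left h2 hC2.le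
    linarith
  -- split according to the height
  obtain ⟨l0, hl0⟩ : ∃ l0, l0 = Real.log X ^ (2 + η) := ⟨_, rfl⟩
  have hLX0 : 0 < Real.log X := by linarith
  have hl0pos : 0 < l0 := by rw [hl0]; positivity
  have hsplit : F.card = (F.filter fun x => hgt x ≤ l0).card +
      (F.filter fun x => ¬ hgt x ≤ l0).card := by
    rw [Finset.card_filter_add_card_filter_not]
  have hs := hsmall X hX hLL1 (F.filter fun x => hgt x ≤ l0) (by
    intro x hx
    obtain ⟨h1, h2⟩ := Finset.mem_filter.1 hx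
    exact ⟨(hF x h1).1, (hF x h1).2.1, by rw [← hl0]; exact h2⟩)
  have hs' : C1 * X ^ (2 / 3 + ε) ≤ C1 * (H * X ^ (2 / 3 + ε)) := by
    refine mul_le_mul_of_nonneg_left ?_ hC1.le
    nlinarith
  have hb : ((F.filter fun x => ¬ hgt x ≤ l0).card : ℝ) ≤
      D * (rho k / (rho k - 1)) * (H * X ^ (2 / 3 + ε)) := by
    rcases le_or_gt l0 H with hlH | hlH
    swap
    · have : (F.filter fun x => ¬ hgt x ≤ l0) = ∅ := by
        rw [Finset.eq_empty_iff_forall_notMem]
        intro x hx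
        obtain ⟨h1, h2⟩ := Finset.mem_filter.1 hx
        exact h2 ((hF x h1).2.2.trans hlH.le)
      rw [this, Finset.card_empty, Nat.cast_zero]
      exact z4
    obtain ⟨J, hJ, hcard⟩ := scales hk1 hl0pos hlH (F.filter fun x => ¬ hgt x ≤ l0) (by
      intro x hx
      obtain ⟨h1, h2⟩ := Finset.mem_filter.1 hx
      exact ⟨(not_le.1 h2).le, (hF x h1).2.2⟩)
    have h1 : ((F.filter fun x => ¬ hgt x ≤ l0).card : ℝ) ≤
        ∑ j ∈ Finset.range (J + 1), D * X ^ (2 / 3 + 3 / (k : ℝ)) * (l0 * rho k ^ j) := by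
      have h2 : ((F.filter fun x => ¬ hgt x ≤ l0).card : ℝ) ≤
          ((∑ j ∈ Finset.range (J + 1), ((F.filter fun x => ¬ hgt x ≤ l0).filter
            fun x => Sc k (l0 * rho k ^ j) x).card : ℕ) : ℝ) := by exact_mod_cast hcard
      refine h2.trans ?_
      rw [Nat.cast_sum]
      refine Finset.sum_le_sum fun j hj => ?_
      have hj' : j ≤ J := Nat.lt_succ_iff.1 (Finset.mem_range.1 hj)
      have h3 : l0 * rho k ^ j ≤ H :=
        (mul_le_mul_of_nonneg_left (pow_le_pow_right₀ hρ.le hj') hl0pos.le).trans hJ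
      refine hscale X hX hLL0 (l0 * rho k ^ j) ?_ (h3.trans hHX) _ ?_
      · rw [← hl0]
        exact le_mul_of_one_le_right hl0pos.le (one_le_pow₀ hρ.le)
      · intro x hx
        obtain ⟨h4, h5⟩ := Finset.mem_filter.1 hx
        obtain ⟨h6, _⟩ := Finset.mem_filter.1 h4
        exact ⟨(hF x h6).1, h5, (hF x h6).2.1⟩
    rw [← Finset.mul_sum, ← Finset.mul_sum] at h1
    refine h1.trans ?_
    have h2 : l0 * ∑ j ∈ Finset.range (J + 1), rho k ^ j ≤ rho k / (rho k - 1) * H := by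
      have h3 := mul_le_mul_of_nonneg_left (geom_le hρ J) hl0pos.le
      have h4 : l0 * (rho k / (rho k - 1) * rho k ^ J) =
          rho k / (rho k - 1) * (l0 * rho k ^ J) := by ring
      rw [h4] at h3
      exact h3.trans (mul_le_mul_of_nonneg_left hJ (by positivity))
    have h5 : X ^ (2 / 3 + 3 / (k : ℝ)) ≤ X ^ (2 / 3 + ε) :=
      Real.rpow_le_rpow_of_exponent_le hX (by linarith)
    have hsum0 : 0 ≤ l0 * ∑ j ∈ Finset.range (J + 1), rho k ^ j :=
      mul_nonneg hl0pos.le (Finset.sum_nonneg fun j _ => pow_nonneg hρpos.le _)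
    calc D * X ^ (2 / 3 + 3 / (k : ℝ)) * (l0 * ∑ j ∈ Finset.range (J + 1), rho k ^ j) ≤
        (D * X ^ (2 / 3 + ε)) * (rho k / (rho k - 1) * H) :=
          mul_le_mul (mul_le_mul_of_nonneg_left h5 hD.le) h2 hsum0 (by positivity)
      _ = _ := by ring
  rw [hsplit]
  push_cast
  linarith

end Pool.Agent.TH876.KR
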