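import Mathlib
import Pool.Agent.TH876.KR.Def
import Pool.Agent.TH867.SR.Cho

set_option autoImplicit false

/-!
# KR-2: the choice of the prescribed primes (job 1471)
-/

namespace Pool.Agent.TH876.KR

open NumberField IsDedekindDomain Finset Pool.Agent.H691R3 Pool.Agent.TH876.Loc

variable {K : Type} [Field K] [NumberField K]

/-- the largest prime of a side -/
theorem cho_max (A : Fin 3) (x : K) : ∃ P : ℝ, 0 ≤ P ∧ (∀ v ∈ side A x, Real.log (Nv v) ≤ P) ∧
    (side A x = ∅ → P = 0) ∧ (side A x ≠ ∅ → ∃ v ∈ side A x, P = Real.log (Nv v)) := by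
  rcases (side A x).eq_empty_or_nonempty with h | h
  · refine ⟨0, le_rfl, fun v hv => ?_, fun _ => rfl, fun h' => absurd h h'⟩
    rw [h] at hv
    exact absurd hv (Finset.notMem_empty v)
  · obtain ⟨p, hp, hmax⟩ := Finset.exists_max_image (side A x) (fun v => Real.log (Nv v)) h
    exact ⟨Real.log (Nv p), (log_Nv_pos' p).le, hmax, fun h' => absurd h' h.ne_empty,
      fun _ => ⟨p, hp, rfl⟩⟩

/-- a set of primes of a side of weight at least `1/k` -/
theorem cho_part {k : ℕ} (hk : 2 ≤ k) {x : K} (hx : Pt x) (h0 : 0 < hgt x) (A : Fin 3) {P : ℝ}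
    (hP : 0 ≤ P) (hPm : ∀ v ∈ side A x, Real.log (Nv v) ≤ P) :
    ∃ Q ⊆ side A x, hgt x / k ≤ aw A x + ∑ v ∈ Q, df (Sum.inr v : Pl K) A x ∧
      ∑ v ∈ Q, Real.log (Nv v) ≤ P + 2 / k * rr A x := by
  classical
  have hk2 : (2 : ℝ) ≤ k := by exact_mod_cast hk
  have hk0 : (0 : ℝ) < k := by linarith
  have hr := rr_nonneg A x
  have ha := aw_nonneg hx A
  have hs := side_sum hx A
  have hkh : hgt x / k ≤ hgt x / 2 := div_le_div_of_nonneg_left h0.le (by norm_num) hk2
  rcases le_or_gt (hgt x / k) (aw A x) with h | h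
  · refine ⟨∅, Finset.empty_subset _, ?_, ?_⟩
    · rw [Finset.sum_empty, add_zero]
      exact h
    · rw [Finset.sum_empty]
      positivity
  · set W : ℝ := ∑ v ∈ side A x, df (Sum.inr v : Pl K) A x with hW
    have hW2 : hgt x / 2 ≤ W := by linarith
    have hW0 : 0 < W := by linarith
    obtain ⟨Q, hQ, h3, h4⟩ := Pool.Agent.TH867.SR.greedy
      (fun v : Pr K => df (Sum.inr v : Pl K) A x) (fun v : Pr K => Real.log (Nv v))
      (κ := hgt x / k) (ρ := rr A x / W) (M := P) (by positivity) (div_nonneg hr hW0.le) hP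
      (side A x) hPm (by
        show rr A x ≤ rr A x / W * W
        rw [div_mul_cancel₀ _ hW0.ne']) (hkh.trans hW2)
    refine ⟨Q, hQ, ?_, ?_⟩
    · linarith
    · have h5 : rr A x / W * (hgt x / k) ≤ 2 / k * rr A x := by
        have h7 : rr A x / W * (hgt x / k) = rr A x / k * (hgt x / W) := by ring
        have h8 : hgt x / W ≤ 2 := by
          rw [div_le_iff₀ hW0]; linarith
        rw [h7]
        calc rr A x / k * (hgt x / W) ≤ rr A x / k * 2 :=
              mul_le_mul_of_nonneg_left h8 (div_nonneg hr hk0.le)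
          _ = 2 / k * rr A x := by ring
      linarith

theorem cho_union [DecidableEq (Pr K)] (S T : Finset (Pr K)) :
    ∑ v ∈ S ∪ T, Real.log (Nv v) ≤ ∑ v ∈ S, Real.log (Nv v) + ∑ v ∈ T, Real.log (Nv v) := by
  have h1 := Finset.sum_union_inter (s₁ := S) (s₂ := T) (f := fun v : Pr K => Real.log (Nv v))
  have h2 : 0 ≤ ∑ v ∈ S ∩ T, Real.log (Nv v) := Finset.sum_nonneg fun v _ => (log_Nv_pos' v).le
  linarith

/-- the property of the set of prescribed primes -/
def ChoG (k : ℕ) (S : Finset (Pr K)) (x : K) : Prop :=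
  Light k S x ∨ ∃ (A B C : Fin 3) (p : Pr K), A ≠ B ∧ B ≠ C ∧ A ≠ C ∧ InP k S A B C x p

theorem cho_one {k : ℕ} (hk : 2 ≤ k) {x : K} (hx : Pt x) (h0 : 0 < hgt x) {A B C : Fin 3}
    (hAB : A ≠ B) (hBC : B ≠ C) (hAC : A ≠ C) {PA PB : ℝ} (hPB0 : side B x = ∅ → PB = 0)
    (hPB : side B x ≠ ∅ → ∃ v ∈ side B x, PB = Real.log (Nv v)) {Q : Finset (Pr K)}
    (hQ : Q ⊆ side A x)
    (hQw : hgt x / k ≤ aw A x + ∑ v ∈ Q, df (Sum.inr v : Pl K) A x)
    (hQc : ∑ v ∈ Q, Real.log (Nv v) ≤ PA + 2 / k * rr A x) :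
    ∃ S : Finset (Pr K), ChoG k S x ∧
      ∑ v ∈ S, Real.log (Nv v) ≤ rr B x - PB + rr C x + PA + 2 / k * rr A x := by
  classical
  have hFin : ∀ i : Fin 3, i = A ∨ i = B ∨ i = C := by
    intro i
    fin_cases A <;> fin_cases B <;> fin_cases C <;> fin_cases i <;> simp at hAB hBC hAC ⊢
  by_cases hB : side B x = ∅
  · refine ⟨side C x ∪ Q, Or.inl ?_, ?_⟩
    · have hsub : sp x \ (side C x ∪ Q) ⊆ side A x \ Q := by
        intro v hv
        rw [Finset.mem_sdiff, Finset.mem_union, not_or] at hv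
        obtain ⟨hv1, hv2, hv3⟩ := hv
        obtain ⟨i, hi⟩ := (mem_sp_iff hx v).1 hv1
        rcases hFin i with rfl | rfl | rfl
        · exact Finset.mem_sdiff.2 ⟨hi, hv3⟩
        · rw [hB] at hi
          exact absurd hi (Finset.notMem_empty v)
        · exact absurd hi hv2
      have h1 : out (side C x ∪ Q) x ≤ ∑ v ∈ side A x \ Q, gd (Sum.inr v : Pl K) x := by
        unfold out
        exact Finset.sum_le_sum_of_subset_of_nonneg hsub fun v _ _ => gd_nonneg _ hx
      have h2 : ∑ v ∈ side A x \ Q, gd (Sum.inr v : Pl K) x =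
          ∑ v ∈ side A x \ Q, df (Sum.inr v : Pl K) A x :=
        Finset.sum_congr rfl fun v hv => gd_eq hx (Finset.mem_sdiff.1 hv).1
      have h3 := Finset.sum_sdiff hQ (f := fun v : Pr K => df (Sum.inr v : Pl K) A x)
      have h4 := side_sum hx A
      show out (side C x ∪ Q) x ≤ (1 - 1 / (k : ℝ)) * hgt x
      have e : (1 - 1 / (k : ℝ)) * hgt x = hgt x - hgt x / k := by ring
      rw [e]
      linarith
    · have h1 := cho_union (side C x) Q
      have h2 : rr B x = 0 := by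
        unfold rr
        rw [hB, Finset.sum_empty]
      have h3 := hPB0 hB
      have h4 : ∑ v ∈ side C x, Real.log (Nv v) = rr C x := rfl
      rw [h2, h3]
      linarith
  · obtain ⟨p, hp, hPp⟩ := hPB hB
    refine ⟨((side B x).erase p ∪ side C x) ∪ Q, Or.inr ⟨A, B, C, p, hAB, hBC, hAC, ?_⟩, ?_⟩
    · refine { pS := ?_, pB := hp, fB := ?_, fC := ?_, wt := ?_ }
      · intro hm
        rcases Finset.mem_union.1 hm with hm | hm
        · rcases Finset.mem_union.1 hm with hm | hm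
          · exact Finset.notMem_erase _ _ hm
          · exact hBC (side_uniq hp hm)
        · exact hAB (side_uniq (hQ hm) hp)
      · intro q hq
        rw [Finset.mem_insert]
        by_cases hqp : q = p
        · exact Or.inl hqp
        · right
          exact Finset.mem_union_left _ (Finset.mem_union_left _ (Finset.mem_erase.2 ⟨hqp, hq⟩))
      · exact Finset.subset_union_right.trans Finset.subset_union_left
      · have h1 : ∑ v ∈ Q, df (Sum.inr v : Pl K) A x ≤
            ∑ v ∈ ((side B x).erase p ∪ side C x) ∪ Q, df (Sum.inr v : Pl K) A x :=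
          Finset.sum_le_sum_of_subset_of_nonneg Finset.subset_union_right
            fun v _ _ => df_nonneg _ A hx
        linarith
    · have h1 := cho_union ((side B x).erase p ∪ side C x) Q
      have h2 := cho_union ((side B x).erase p) (side C x)
      have h3 := Finset.add_sum_erase (side B x) (fun v : Pr K => Real.log (Nv v)) hp
      have h4 : ∑ v ∈ side C x, Real.log (Nv v) = rr C x := rfl
      have h5 : ∑ v ∈ side B x, Real.log (Nv v) = rr B x := rfl
      rw [hPp]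
      linarith

theorem choice {k : ℕ} (hk : 2 ≤ k) {x : K} (hx : Pt x) (h0 : 0 < hgt x) :
    ∃ S : Finset (Pr K), (Light k S x ∨ ∃ (A B C : Fin 3) (p : Pr K), A ≠ B ∧ B ≠ C ∧ A ≠ C ∧
        InP k S A B C x p) ∧
      ∑ v ∈ S, Real.log (Nv v) ≤ (2 / 3 + 1 / (k : ℝ)) * (rr 0 x + rr 1 x + rr 2 x) := by
  have hk2 : (2 : ℝ) ≤ k := by exact_mod_cast hk
  have hk0 : (0 : ℝ) < k := by linarith
  obtain ⟨P0, hP0, m0, e0, n0⟩ := cho_max 0 x
  obtain ⟨P1, hP1, m1, e1, n1⟩ := cho_max 1 x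
  obtain ⟨P2, hP2, m2, e2, n2⟩ := cho_max 2 x
  obtain ⟨Q0, hQ0, w0, c0⟩ := cho_part hk hx h0 0 hP0 m0
  obtain ⟨Q1, hQ1, w1, c1⟩ := cho_part hk hx h0 1 hP1 m1
  obtain ⟨Q2, hQ2, w2, c2⟩ := cho_part hk hx h0 2 hP2 m2
  obtain ⟨S0, g0, f0⟩ := cho_one hk hx h0 (A := 0) (B := 1) (C := 2) (by decide) (by decide)
    (by decide) e1 n1 hQ0 w0 c0
  obtain ⟨S1, g1, f1⟩ := cho_one hk hx h0 (A := 1) (B := 2) (C := 0) (by decide) (by decide)
    (by decide) e2 n2 hQ1 w1 c1
  obtain ⟨S2, g2, f2⟩ := cho_one hk hx h0 (A := 2) (B := 0) (C := 1) (by decide) (by decide)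
    (by decide) e0 n0 hQ2 w2 c2
  have r0 := rr_nonneg 0 x
  have r1 := rr_nonneg 1 x
  have r2 := rr_nonneg 2 x
  obtain ⟨κ, hκ⟩ : ∃ κ : ℝ, κ = 1 / (k : ℝ) := ⟨_, rfl⟩
  have hκ0 : 0 < κ := by rw [hκ]; positivity
  have k2 : (2 : ℝ) / k = 2 * κ := by rw [hκ]; ring
  rw [k2] at f0 f1 f2
  rw [← hκ]
  have q0 := mul_nonneg hκ0.le r0
  have q1 := mul_nonneg hκ0.le r1
  have q2 := mul_nonneg hκ0.le r2
  by_contra hcon
  push Not at hcon
  have a0 := hcon S0 g0
  have a1 := hcon S1 g1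
  have a2 := hcon S2 g2
  nlinarith

end Pool.Agent.TH876.KR
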