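import Mathlib

set_option autoImplicit false

/-!
# The numerical conditions at one scale
-/

namespace Pool.Agent.TH876.KR

theorem numericK (C k r : ℕ) (hC : 1 ≤ C) (hk : 1 ≤ k) (hr : 1 ≤ r) (c : ℝ) (hc : 0 ≤ c) :
    ∃ T : ℝ, 0 < T ∧ ∀ L l : ℝ, 3 ≤ L → 1 ≤ Real.log l → L ≤ l →
      T * (L ^ 2 * Real.log l) ≤ l →
      ∃ n N E : ℕ, 1 ≤ n ∧ 1 ≤ N ∧ (n : ℝ) ≤ (21 + 12 * C) * (L * Real.log l) ∧
        (N : ℝ) = 16 * C * k * n ∧ 3 * l ≤ E ∧ (E : ℝ) ≤ 4 * l ∧ 8 * k * c < l ∧
        2 < l / (4 * k * r) ∧ C * n * (2 * Real.exp (-(l / (8 * k * r)))) ≤ 1 ∧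
        (∀ (s e : ℕ) (ν : ℝ), (s : ℝ) ≤ 3 / 2 * L → 1 ≤ ν → Real.log ν ≤ L → 1 ≤ e → e ≤ E →
          ((n : ℝ) + 1) * (2 * n * E + 1) ^ s * (9 * e) ^ C * ν ^ C < 2 ^ n) ∧
        (∀ e : ℕ, 1 ≤ e → e ≤ E →
          C * (Real.log e + n * L + n * (2 * (l / N)) / e + n) < l / (2 * k)) := by
  have hC1 : (1 : ℝ) ≤ C := by exact_mod_cast hC
  have hk1 : (1 : ℝ) ≤ k := by exact_mod_cast hk
  have hr1 : (1 : ℝ) ≤ r := by exact_mod_cast hr
  have hk0 : (0 : ℝ) < k := by linarith
  have hr0 : (0 : ℝ) < r := by linarith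
  have hC0 : (0 : ℝ) < C := by linarith
  have hkr : (0 : ℝ) < k * r := by positivity
  refine ⟨8 * k * c + 8 * (k * r) + 1 + (21 + 12 * C) + 8 * (k * r) * (2 * C + 1) +
    4 * k * (C * (45 + 24 * C)), by positivity, ?_⟩
  intro L l hL hlog hLl hT
  obtain ⟨lam, hlam⟩ : ∃ lam, lam = Real.log l := ⟨_, rfl⟩
  rw [← hlam] at hlog hT ⊢
  have hl3 : 3 ≤ l := hL.trans hLl
  have hl0 : 0 < l := by linarith
  have hlam0 : 0 < lam := by linarith
  obtain ⟨u, hu⟩ : ∃ u, u = L ^ 2 * lam := ⟨_, rfl⟩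
  rw [← hu] at hT
  have hLlam : L ≤ L * lam := by nlinarith
  have hlamL : lam ≤ L * lam := by nlinarith
  have hLu : L * lam ≤ u := by rw [hu]; nlinarith
  have hu1 : 1 ≤ u := by nlinarith
  have hu0 : 0 ≤ u := by linarith
  -- the consequences
  have t1 : 8 * k * c < l := by
    have : (8 * k * c + 1) * u ≤ l := by
      refine le_trans (mul_le_mul_of_nonneg_right ?_ hu0) hT
      have : (0 : ℝ) ≤ 8 * (k * r) + (21 + 12 * C) + 8 * (k * r) * (2 * C + 1) +
        4 * k * (C * (45 + 24 * C)) := by positivity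
      linarith
    have h2 : 0 ≤ 8 * k * c := by positivity
    nlinarith
  have t2 : 8 * (k * r) < l := by
    have : (8 * (k * r) + 1) * u ≤ l := by
      refine le_trans (mul_le_mul_of_nonneg_right ?_ hu0) hT
      have : (0 : ℝ) ≤ 8 * k * c + (21 + 12 * C) + 8 * (k * r) * (2 * C + 1) +
        4 * k * (C * (45 + 24 * C)) := by positivity
      linarith
    nlinarith
  have t3 : (21 + 12 * C) * u ≤ l := by
    refine le_trans (mul_le_mul_of_nonneg_right ?_ hu0) hT
    have : (0 : ℝ) ≤ 8 * k * c + 8 * (k * r) + 1 + 8 * (k * r) * (2 * C + 1) +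
      4 * k * (C * (45 + 24 * C)) := by positivity
    linarith
  have t4 : 8 * (k * r) * ((2 * C + 1) * u) ≤ l := by
    have : 8 * (k * r) * (2 * C + 1) * u ≤ l := by
      refine le_trans (mul_le_mul_of_nonneg_right ?_ hu0) hT
      have : (0 : ℝ) ≤ 8 * k * c + 8 * (k * r) + 1 + (21 + 12 * C) +
        4 * k * (C * (45 + 24 * C)) := by positivity
      linarith
    linarith
  have t5 : 4 * k * (C * (45 + 24 * C) * u) ≤ l := by
    have : 4 * k * (C * (45 + 24 * C)) * u ≤ l := by
      refine le_trans (mul_le_mul_of_nonneg_right ?_ hu0) hT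
      have : (0 : ℝ) ≤ 8 * k * c + 8 * (k * r) + 1 + (21 + 12 * C) +
        8 * (k * r) * (2 * C + 1) := by positivity
      linarith
    linarith
  obtain ⟨n, hn⟩ : ∃ n : ℕ, n = ⌈(20 + 12 * (C : ℝ)) * (L * lam)⌉₊ := ⟨_, rfl⟩
  have hnn : 0 ≤ (20 + 12 * (C : ℝ)) * (L * lam) := by positivity
  have hn1 : (20 + 12 * (C : ℝ)) * (L * lam) ≤ n := by rw [hn]; exact Nat.le_ceil _
  have hn2 : (n : ℝ) ≤ (21 + 12 * C) * (L * lam) := by
    have := (Nat.ceil_lt_add_one hnn).le
    rw [← hn] at this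
    have h1 : 1 ≤ L * lam := by nlinarith
    linarith
  have hn0 : 1 ≤ n := by
    have h1 : (1 : ℝ) ≤ n := by
      have : 1 ≤ L * lam := by nlinarith
      nlinarith
    exact_mod_cast h1
  have hn0' : (1 : ℝ) ≤ n := by exact_mod_cast hn0
  have hnl : (n : ℝ) ≤ l := by
    refine hn2.trans (le_trans ?_ t3)
    exact mul_le_mul_of_nonneg_left hLu (by positivity)
  obtain ⟨E, hE⟩ : ∃ E : ℕ, E = ⌈3 * l⌉₊ := ⟨_, rfl⟩
  have hE1 : 3 * l ≤ E := by rw [hE]; exact Nat.le_ceil _
  have hE2 : (E : ℝ) ≤ 4 * l := by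
    have := (Nat.ceil_lt_add_one (by positivity : 0 ≤ 3 * l)).le
    rw [← hE] at this
    linarith
  have l2a := Real.log_two_gt_d9
  have l2b := Real.log_two_lt_d9
  have hNpos : 0 < 16 * C * k * n := by
    have : 0 < C := hC
    have : 0 < k := hk
    have : 0 < n := hn0
    positivity
  refine ⟨n, 16 * C * k * n, E, hn0, hNpos, hn2, by push_cast; ring, hE1, hE2, t1, ?_, ?_, ?_, ?_⟩
  · rw [lt_div_iff₀ (by positivity)]
    linarith
  · have h1 : 2 * C + lam ≤ l / (8 * k * r) := by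
      rw [le_div_iff₀ (by positivity)]
      have h2 : (2 * C + lam) ≤ (2 * C + 1) * u := by nlinarith
      have h3 := mul_le_mul_of_nonneg_left h2 (by positivity : 0 ≤ 8 * ((k : ℝ) * r))
      linarith
    have h4 : Real.exp (-(l / (8 * k * r))) ≤ Real.exp (-(2 * C)) * Real.exp (-lam) := by
      rw [← Real.exp_add]
      exact Real.exp_le_exp.2 (by linarith)
    have h5 : Real.exp (-lam) = l⁻¹ := by rw [Real.exp_neg, hlam, Real.exp_log hl0]
    have h6 : 2 * C * Real.exp (-(2 * (C : ℝ))) ≤ 1 := by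
      have h7 := Real.add_one_le_exp (2 * (C : ℝ))
      have h8 : Real.exp (-(2 * (C : ℝ))) * Real.exp (2 * C) = 1 := by
        rw [← Real.exp_add]; simp
      have h9 := Real.exp_pos (-(2 * (C : ℝ)))
      nlinarith
    rw [h5] at h4
    have h10 := Real.exp_pos (-(2 * (C : ℝ)))
    calc C * n * (2 * Real.exp (-(l / (8 * k * r)))) ≤
        C * l * (2 * (Real.exp (-(2 * C)) * l⁻¹)) := by
          refine mul_le_mul (mul_le_mul_of_nonneg_left hnl hC0.le)
            (mul_le_mul_of_nonneg_left h4 (by norm_num)) (by positivity) (by positivity)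
      _ = 2 * C * Real.exp (-(2 * (C : ℝ))) := by field_simp
      _ ≤ 1 := h6
  · intro s e ν hs hν hνL he heE
    have he1 : (1 : ℝ) ≤ e := by exact_mod_cast he
    have heE' : (e : ℝ) ≤ E := by exact_mod_cast heE
    have hν0 : 0 < ν := by linarith
    have hpos : 0 < ((n : ℝ) + 1) * (2 * n * E + 1) ^ s * (9 * e) ^ C * ν ^ C := by positivity
    rw [← Real.log_lt_log_iff hpos (by positivity), Real.log_mul (by positivity) (by positivity),
      Real.log_mul (by positivity) (by positivity), Real.log_mul (by positivity) (by positivity),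
      Real.log_pow, Real.log_pow, Real.log_pow, Real.log_pow]
    have hlog2 : Real.log 2 ≤ lam := by
      rw [hlam]; exact Real.log_le_log (by norm_num) (by linarith)
    have a1 : Real.log ((n : ℝ) + 1) ≤ 2 * lam := by
      have h1 : Real.log ((n : ℝ) + 1) ≤ Real.log (2 * l) :=
        Real.log_le_log (by positivity) (by linarith)
      rw [Real.log_mul (by norm_num) hl0.ne', ← hlam] at h1
      linarith
    have a2 : Real.log (2 * n * E + 1) ≤ 4 * lam := by
      have h1 : (2 : ℝ) * n * E + 1 ≤ l ^ 4 := by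
        have h2 : (n : ℝ) * E ≤ l * (4 * l) := mul_le_mul hnl hE2 (by positivity) (by positivity)
        have h3 : 9 ≤ l ^ 2 := by nlinarith
        have h4 : l ^ 4 = l ^ 2 * l ^ 2 := by ring
        rw [h4]
        nlinarith
      have h2 : Real.log (2 * n * E + 1) ≤ Real.log (l ^ 4) :=
        Real.log_le_log (by positivity) h1
      rw [Real.log_pow, ← hlam] at h2
      push_cast at h2
      linarith
    have a3 : Real.log (9 * e) ≤ 5 * lam := by
      have h1 : (9 : ℝ) * e ≤ l ^ 5 := by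
        have h3 : 9 ≤ l ^ 2 := by nlinarith
        have h4 : l ^ 5 = l ^ 2 * l ^ 2 * l := by ring
        have h5 : 81 ≤ l ^ 2 * l ^ 2 := by nlinarith
        rw [h4]
        nlinarith
      have h2 : Real.log (9 * e) ≤ Real.log (l ^ 5) := Real.log_le_log (by positivity) h1
      rw [Real.log_pow, ← hlam] at h2
      push_cast at h2
      linarith
    have b2 : (s : ℝ) * Real.log (2 * n * E + 1) ≤ 6 * (L * lam) := by
      calc (s : ℝ) * Real.log (2 * n * E + 1) ≤ (3 / 2 * L) * (4 * lam) :=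
            mul_le_mul hs a2 (Real.log_nonneg (by
              have : (0 : ℝ) ≤ 2 * n * E := by positivity
              linarith)) (by positivity)
        _ = _ := by ring
    have b3 : (C : ℝ) * Real.log (9 * e) ≤ 5 * C * (L * lam) := by
      calc (C : ℝ) * Real.log (9 * e) ≤ C * (5 * lam) := mul_le_mul_of_nonneg_left a3 hC0.le
        _ ≤ 5 * C * (L * lam) := by nlinarith
    have b4 : (C : ℝ) * Real.log ν ≤ C * (L * lam) :=
      mul_le_mul_of_nonneg_left (hνL.trans hLlam) hC0.le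
    have b5 : (20 + 12 * (C : ℝ)) * (L * lam) * Real.log 2 ≤ n * Real.log 2 :=
      mul_le_mul_of_nonneg_right hn1 (by linarith)
    have b6 : 0 < L * lam := by positivity
    have b7 : (20 + 12 * (C : ℝ)) * (L * lam) * (69 / 100) ≤
        (20 + 12 * (C : ℝ)) * (L * lam) * Real.log 2 :=
      mul_le_mul_of_nonneg_left (by linarith) (by positivity)
    have b8 : 0 < (C : ℝ) * (L * lam) := by positivity
    nlinarith
  · intro e he heE
    have he1 : (1 : ℝ) ≤ e := by exact_mod_cast he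
    have he0 : (0 : ℝ) < e := by linarith
    have heE' : (e : ℝ) ≤ E := by exact_mod_cast heE
    have a1 : Real.log e ≤ 3 * u := by
      have h1 : Real.log e ≤ Real.log (l ^ 3) := by
        refine Real.log_le_log he0 ?_
        have h3 : 9 ≤ l ^ 2 := by nlinarith
        have h4 : l ^ 3 = l ^ 2 * l := by ring
        rw [h4]
        nlinarith
      rw [Real.log_pow, ← hlam] at h1
      push_cast at h1
      nlinarith
    have a2 : n * L ≤ (21 + 12 * C) * u := by
      calc n * L ≤ ((21 + 12 * C) * (L * lam)) * L := mul_le_mul_of_nonneg_right hn2 (by linarith)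
        _ = _ := by rw [hu]; ring
    have a3 : (n : ℝ) ≤ (21 + 12 * C) * u :=
      hn2.trans (mul_le_mul_of_nonneg_left hLu (by positivity))
    have a4 : (n : ℝ) * (2 * (l / ((16 * C * k * n : ℕ) : ℝ))) / e ≤ l / (8 * C * k) := by
      have hN0 : (0 : ℝ) < n := by linarith
      have e1 : (n : ℝ) * (2 * (l / ((16 * C * k * n : ℕ) : ℝ))) = l / (8 * C * k) := by
        push_cast
        field_simp
        norm_num
      rw [e1]
      exact div_le_self (by positivity) he1
    have a5 : C * (l / (8 * C * k)) = l / k / 8 := by field_simp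
    have a6 : C * (45 + 24 * C) * u ≤ l / k / 4 := by
      rw [div_div, le_div_iff₀ (by positivity)]
      linarith
    have a7 : l / (2 * k) = l / k / 2 := by field_simp
    have a8 : 0 < l / k := by positivity
    rw [a7]
    have h1 : Real.log e + n * L + (n : ℝ) * (2 * (l / ((16 * C * k * n : ℕ) : ℝ))) / e + n ≤
        (45 + 24 * C) * u + l / (8 * C * k) := by linarith
    have h2 := mul_le_mul_of_nonneg_left h1 hC0.le
    have h3 : C * ((45 + 24 * (C : ℝ)) * u + l / (8 * C * k)) =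
        C * (45 + 24 * C) * u + l / k / 8 := by
      rw [← a5]
      ring
    rw [h3] at h2
    linarith

end Pool.Agent.TH876.KR
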