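import Pool.Agent.TH876.KR.CardP
import Pool.Agent.TH876.KR.Cho
import Pool.Agent.TH876.KR.Sets

set_option autoImplicit false

/-!
# Counting the points of one scale
-/

namespace Pool.Agent.TH876.KR

open NumberField IsDedekindDomain Finset Pool.Agent.H691R3 Pool.Agent.TH876.Loc

variable {K : Type} [Field K] [NumberField K]

variable (K) in
/-- the conclusion of the pigeonhole argument -/
def PigStmt (C : ℕ) : Prop :=
  ∀ (S : Finset (Pr K)) (n e E : ℕ) (Y τ : ℝ)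
    (y : Fin n → K) (p : Fin n → Pr K) (T : Finset (Pr K)) (W : Finset (InfinitePlace K))
    (δ : Pr K → ℝ) (δ' : InfinitePlace K → ℝ),
    1 ≤ n → 1 ≤ e → 1 ≤ Y → 0 ≤ τ → (∀ i, y i ≠ 0) → Function.Injective p → (∀ i, p i ∉ S) →
    (∀ i, Nv (p i) ≤ Y) →
    (∀ i v, v ∉ S → v ≠ p i → fv v (y i) = 1) → (∀ i, fv (p i) (y i) = (Nv (p i))⁻¹ ^ e) →
    (∀ i, ∀ v ∈ S, ∃ a : ℤ, |a| ≤ E ∧ fv v (y i) = (Nv v)⁻¹ ^ a) →
    (∀ i j, ∀ w : InfinitePlace K, |Real.log (w (y i)) - Real.log (w (y j))| ≤ τ) →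
    T ⊆ S → (∀ v ∈ T, 0 < δ v ∧ δ v < 1) → (∀ i, ∀ v ∈ T, fv v (y i - 1) ≤ δ v) →
    (∀ w ∈ W, 0 < δ' w ∧ C * n * δ' w ≤ 1) → (∀ i, ∀ w ∈ W, w (y i - 1) ≤ δ' w) →
    ((n : ℝ) + 1) * (2 * n * E + 1) ^ S.card * (9 * e) ^ C * nn S ^ C < 2 ^ n →
    ∑ v ∈ T, -Real.log (δ v) + ∑ w ∈ W, (w.mult : ℝ) * -Real.log (δ' w) ≤
      C * (Real.log e + n * Real.log Y + n * τ / e + n)

open Classical in
/-- few points with a distinguished prime -/
theorem card_P {C : ℕ} (hpig : PigStmt K C) {k n N E : ℕ} (hk : 1 ≤ k) (hn : 1 ≤ n) (hN : 1 ≤ N)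
    {S : Finset (Pr K)} {A B D : Fin 3} (hAB : A ≠ B) (hBD : B ≠ D) (hAD : A ≠ D) {e : ℕ}
    (he : 1 ≤ e) {X l : ℝ}
    (hX : 1 ≤ X) (hl : 8 * k * (dK K * Real.log 2) < l) (hE : 3 * l ≤ E)
    (hr : 2 < l / (4 * k * Fintype.card (InfinitePlace K)))
    (hW : C * n * (2 * Real.exp (-(l / (8 * k * Fintype.card (InfinitePlace K))))) ≤ 1)
    (hcount : ((n : ℝ) + 1) * (2 * n * E + 1) ^ S.card * (9 * e) ^ C * nn S ^ C < 2 ^ n)
    (hfin : C * (Real.log e + n * Real.log X + n * (2 * (l / N)) / e + n) < l / (2 * k))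
    (F : Finset K) (hF : ∀ x ∈ F, Pt x ∧ Sc k l x ∧ ∃ p, InP k S A B D x p ∧ Nv p ≤ X ∧
      df (Sum.inr p : Pl K) B x = e * Real.log (Nv p)) :
    F.card ≤ 2 ^ (99 * k * (Spl S).card) * (3 * N) ^ (3 * Fintype.card (InfinitePlace K)) * n := by
  have hk0 : (0 : ℝ) < k := by exact_mod_cast hk
  have hl0 : 0 < l := lt_of_le_of_lt (mul_nonneg (by positivity) dK_nn) hl
  have h2l : ∀ x ∈ F, Pt x ∧ hgt x ≤ 2 * l := fun x hx =>
    ⟨(hF x hx).1, (hF x hx).2.1.le_two hk hl0.le⟩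
  obtain ⟨f, hf1, hf2⟩ := cells hk S hl0 F h2l
  obtain ⟨g, hg1, hg2⟩ := cells_inf hN hl0 F h2l
  by_contra hcon
  push Not at hcon
  set R := 2 ^ (99 * k * (Spl S).card) with hR
  set R' := (3 * N) ^ (3 * Fintype.card (InfinitePlace K)) with hR'
  have hmaps : ∀ x ∈ F, (f x, g x) ∈ (Finset.range R ×ˢ Finset.range R') := by
    intro x hx
    exact Finset.mem_product.2 ⟨Finset.mem_range.2 (hf1 x hx), Finset.mem_range.2 (hg1 x hx)⟩
  have hcard2 : (Finset.range R ×ˢ Finset.range R').card * n < F.card := by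
    rw [Finset.card_product, Finset.card_range, Finset.card_range]
    exact hcon
  obtain ⟨c, _, hc⟩ := Finset.exists_lt_card_fiber_of_mul_lt_card_of_maps_to hmaps hcard2
  obtain ⟨Q, hQ, hQc⟩ := Finset.exists_subset_card_eq hc.le
  let io : Fin n ≃ Q := (Finset.equivFinOfCardEq hQc).symm
  have hmem : ∀ i : Fin n, (io i : K) ∈ F ∧ (f (io i), g (io i)) = c := fun i =>
    Finset.mem_filter.1 (hQ (io i).2)
  choose p hp using fun i : Fin n => (hF _ (hmem i).1).2.2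
  refine cell_contra hpig hk hn hN hAB hBD hAD he hX hl hE hr hW hcount hfin
    (fun i => (io i : K)) (fun i => (hF _ (hmem i).1).1) (fun i => (hF _ (hmem i).1).2.1)
    (fun i j hij => io.injective (Subtype.ext hij)) p (fun i => (hp i).1) (fun i => (hp i).2.1)
    (fun i => (hp i).2.2) ?_ ?_
  · intro i j
    refine hf2 _ (hmem i).1 _ (hmem j).1 ?_
    exact congrArg Prod.fst ((hmem i).2.trans (hmem j).2.symm)
  · intro i j w m
    refine hg2 _ (hmem i).1 _ (hmem j).1 ?_ w m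
    exact congrArg Prod.snd ((hmem i).2.trans (hmem j).2.symm)

open Classical in
/-- the points of one scale -/
theorem count {C : ℕ} (hpig : PigStmt K C) {k n N E : ℕ} (hk : 3 ≤ k) (hn : 1 ≤ n) (hN : 1 ≤ N)
    {X l : ℝ} (hX : 1 ≤ X) (hl : 8 * k * (dK K * Real.log 2) < l) (hE : 3 * l ≤ E)
    (hr : 2 < l / (4 * k * Fintype.card (InfinitePlace K)))
    (hW : C * n * (2 * Real.exp (-(l / (8 * k * Fintype.card (InfinitePlace K))))) ≤ 1)
    (hcount : ∀ S : Finset (Pr K), nn S ≤ X → ∀ e : ℕ, 1 ≤ e → e ≤ E →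
      ((n : ℝ) + 1) * (2 * n * E + 1) ^ S.card * (9 * e) ^ C * nn S ^ C < 2 ^ n)
    (hfin : ∀ e : ℕ, 1 ≤ e → e ≤ E →
      C * (Real.log e + n * Real.log X + n * (2 * (l / N)) / e + n) < l / (2 * k))
    (U : Finset (Finset (Pr K))) (hU : ∀ S : Finset (Pr K), nn S ≤ X ^ (2 / 3 + 1 / (k : ℝ)) → S ∈ U)
    (hU2 : ∀ S ∈ U, nn S ≤ X)
    (F : Finset K) (hF : ∀ x ∈ F, Pt x ∧ Sc k l x ∧ nn (sp x) ≤ X) :
    F.card ≤ ∑ S ∈ U, 2 ^ (99 * k * (Spl S).card) *
      (1 + 27 * ((E + 1) * ((3 * N) ^ (3 * Fintype.card (InfinitePlace K)) * n))) := by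
  have hk0 : (0 : ℝ) < k := by positivity
  have hk1 : 1 ≤ k := by omega
  have hX0 : 0 < X := by linarith
  have hl0 : 0 < l := lt_of_le_of_lt (mul_nonneg (by positivity) dK_nn) hl
  have hl4 : 4 * k * (dK K * Real.log 2) < l := by
    have : 0 ≤ 4 * k * (dK K * Real.log 2) := mul_nonneg (by positivity) dK_nn
    linarith
  set FL : Finset (Pr K) → Finset K := fun S => F.filter fun x => Light k S x with hFL
  set FP : Finset (Pr K) → Fin 3 × Fin 3 × Fin 3 → ℕ → Finset K := fun S σ e =>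
    F.filter fun x => σ.1 ≠ σ.2.1 ∧ σ.2.1 ≠ σ.2.2 ∧ σ.1 ≠ σ.2.2 ∧
      ∃ p, InP k S σ.1 σ.2.1 σ.2.2 x p ∧ Nv p ≤ X ∧
        df (Sum.inr p : Pl K) σ.2.1 x = e * Real.log (Nv p) with hFP
  set G : Finset (Pr K) → Finset K := fun S => FL S ∪
    (Finset.univ : Finset (Fin 3 × Fin 3 × Fin 3)).biUnion (fun σ =>
      (Finset.Icc 1 E).biUnion (fun e => FP S σ e)) with hG
  have hsub : F ⊆ U.biUnion G := by
    intro x hx
    obtain ⟨h1, h2, h3⟩ := hF x hx
    have hh0 : 0 < hgt x := lt_of_lt_of_le hl0 h2.1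
    obtain ⟨S, hgood, hsum⟩ := choice (k := k) (by omega) h1 hh0
    have hnnS : nn S ≤ X ^ (2 / 3 + 1 / (k : ℝ)) := by
      rw [← Real.log_le_log_iff (nn_pos S) (Real.rpow_pos_of_pos hX0 _), Real.log_rpow hX0,
        log_nn]
      refine hsum.trans (mul_le_mul_of_nonneg_left ?_ (by positivity))
      rw [rr_sum' h1]
      exact Real.log_le_log (nn_pos _) h3
    rw [Finset.mem_biUnion]
    refine ⟨S, hU S hnnS, ?_⟩
    rcases hgood with hg | ⟨A, B, D, p, hAB, hBD, hAD, hP⟩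
    · exact Finset.mem_union_left _ (Finset.mem_filter.2 ⟨hx, hg⟩)
    · refine Finset.mem_union_right _ ?_
      rw [Finset.mem_biUnion]
      refine ⟨(A, B, D), Finset.mem_univ _, ?_⟩
      rw [Finset.mem_biUnion]
      obtain ⟨e, he⟩ := df_int h1 p B
      have hpos := (mem_side h1).1 hP.pB
      have hlog := log_Nv_pos' p
      have hlog2 : Real.log 2 ≤ Real.log (Nv p) := Real.log_le_log (by norm_num) (two_le_Nv p)
      have l2 := Real.log_two_gt_d9
      have he1 : 1 ≤ e := by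
        by_contra hcon
        have : e = 0 := by omega
        rw [he, this] at hpos
        simp at hpos
      have he0 : (0 : ℝ) ≤ e := Nat.cast_nonneg _
      have heE : e ≤ E := by
        have h4 := df_le_hgt h1 (Sum.inr p : Pl K) B
        rw [he] at h4
        have h5 := h2.le_two hk1 hl0.le
        have h6 : (e : ℝ) ≤ E := by nlinarith
        exact_mod_cast h6
      refine ⟨e, Finset.mem_Icc.2 ⟨he1, heE⟩, Finset.mem_filter.2
        ⟨hx, hAB, hBD, hAD, p, hP, ?_, he⟩⟩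
      exact (Nv_le_nn (side_sub B x hP.pB)).trans h3
  refine (Finset.card_le_card hsub).trans (Finset.card_biUnion_le.trans
    (Finset.sum_le_sum fun S hS => ?_))
  have c1 : (FL S).card ≤ 2 ^ (99 * k * (Spl S).card) :=
    card_light hk1 hl4 _ fun x hx => by
      obtain ⟨h1, h2⟩ := Finset.mem_filter.1 hx
      exact ⟨(hF x h1).1, (hF x h1).2.1, h2⟩
  have c2 : ∀ σ e, e ∈ Finset.Icc 1 E → (FP S σ e).card ≤
      2 ^ (99 * k * (Spl S).card) * (3 * N) ^ (3 * Fintype.card (InfinitePlace K)) * n := by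
    intro σ e he
    obtain ⟨he1, he2⟩ := Finset.mem_Icc.1 he
    by_cases hσ : σ.1 ≠ σ.2.1 ∧ σ.2.1 ≠ σ.2.2 ∧ σ.1 ≠ σ.2.2
    · obtain ⟨hAB, hBD, hAD⟩ := hσ
      refine card_P hpig hk1 hn hN hAB hBD hAD he1 hX hl hE hr hW (hcount S (hU2 S hS) e he1 he2)
        (hfin e he1 he2) _ ?_
      intro x hx
      obtain ⟨h1, _, _, _, h2⟩ := Finset.mem_filter.1 hx
      exact ⟨(hF x h1).1, (hF x h1).2.1, h2⟩
    · have : FP S σ e = ∅ := by
        rw [Finset.eq_empty_iff_forall_notMem]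
        intro x hx
        obtain ⟨_, a1, a2, a3, _⟩ := Finset.mem_filter.1 hx
        exact hσ ⟨a1, a2, a3⟩
      rw [this, Finset.card_empty]
      exact Nat.zero_le _
  set R := 2 ^ (99 * k * (Spl S).card) with hR
  set R' := (3 * N) ^ (3 * Fintype.card (InfinitePlace K)) with hR'
  calc (G S).card ≤ (FL S).card + ((Finset.univ : Finset (Fin 3 × Fin 3 × Fin 3)).biUnion (fun σ =>
      (Finset.Icc 1 E).biUnion (fun e => FP S σ e))).card := Finset.card_union_le _ _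
    _ ≤ R + 27 * ((E + 1) * (R * R' * n)) := by
        refine Nat.add_le_add c1 ?_
        refine (Finset.card_biUnion_le_card_mul _ _ ((E + 1) * (R * R' * n)) ?_).trans
          (le_of_eq ?_)
        · intro σ _
          refine (Finset.card_biUnion_le_card_mul _ _ (R * R' * n) ?_).trans ?_
          · intro e he
            exact c2 σ e he
          · rw [Nat.card_Icc]
            exact Nat.mul_le_mul_right _ (by omega)
        · rw [Finset.card_univ]
          rfl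
    _ = _ := by ring

end Pool.Agent.TH876.KR
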