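import Mathlib
import Pool.Agent.TH876.KR.Def

set_option autoImplicit false

/-!
# Products of numbers close to one (job KR-8)
-/

namespace Pool.Agent.TH876.KR

open NumberField IsDedekindDomain Finset Pool.Agent.H691R3 Pool.Agent.TH876.Loc

variable {K : Type} [Field K] [NumberField K]

section Arch

variable (w : AbsoluteValue K ℝ)

theorem near_mul (a b : K) : 1 + w (a * b - 1) ≤ (1 + w (a - 1)) * (1 + w (b - 1)) := by
  have h1 : a * b - 1 = a * (b - 1) + (a - 1) := by ring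
  have h2 : w (a * b - 1) ≤ w a * w (b - 1) + w (a - 1) := by
    rw [h1]
    refine (w.add_le _ _).trans (le_of_eq ?_)
    rw [map_mul]
  have h3 : w a ≤ 1 + w (a - 1) := by
    have : a = 1 + (a - 1) := by ring
    calc w a = w (1 + (a - 1)) := by rw [← this]
      _ ≤ w 1 + w (a - 1) := w.add_le _ _
      _ = _ := by rw [map_one]
  have h4 : w a * w (b - 1) ≤ (1 + w (a - 1)) * w (b - 1) :=
    mul_le_mul_of_nonneg_right h3 (w.nonneg _)
  linarith

theorem near_prod {ι : Type*} (s : Finset ι) (y : ι → K) {t : ℝ} (h : ∀ i ∈ s, w (y i - 1) ≤ t)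
    (ht : 0 ≤ t) : 1 + w (∏ i ∈ s, y i - 1) ≤ (1 + t) ^ s.card := by
  classical
  induction s using Finset.induction_on with
  | empty => simp
  | insert i s hi ih =>
    rw [Finset.prod_insert hi, Finset.card_insert_of_notMem hi, pow_succ']
    refine (near_mul w _ _).trans ?_
    apply mul_le_mul
    · have := h i (Finset.mem_insert_self _ _)
      linarith
    · exact ih (fun j hj => h j (Finset.mem_insert_of_mem hj))
    · have := w.nonneg (∏ i ∈ s, y i - 1)
      linarith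
    · linarith

theorem near_pow (a : K) (h : ℕ) : 1 + w (a ^ h - 1) ≤ (1 + w (a - 1)) ^ h := by
  have := near_prod w (Finset.range h) (fun _ => a) (t := w (a - 1)) (fun _ _ => le_rfl)
    (w.nonneg _)
  simpa using this

end Arch

theorem prod_near_one {w : InfinitePlace K} {n h : ℕ} (y : Fin n → K) (I J : Finset (Fin n)) {δ : ℝ}
    (hδ0 : 0 ≤ δ) (hy : ∀ i, w (y i - 1) ≤ δ) (hδ : 8 * (n * h : ℕ) * δ ≤ 1) (hh : 1 ≤ h) (hn : 1 ≤ n):
    w (((∏ i ∈ I, y i) / ∏ j ∈ J, y j) ^ h - 1) ≤ 8 * (n * h : ℕ) * δ := by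
  have hnh : (1:ℝ) ≤ (n * h : ℕ) := by
    have : 1 ≤ n * h := Nat.one_le_iff_ne_zero.2 (by positivity)
    exact_mod_cast this
  have hδ8 : δ ≤ 1/8 := by
    have := mul_le_mul_of_nonneg_right hnh hδ0
    linarith
  have hy' : ∀ i, w.1 (y i - 1) ≤ δ := hy
  have hinv : ∀ i, w.1 ((y i)⁻¹ - 1) ≤ 2 * δ := by
    intro i
    have h1 : 1 - δ ≤ w.1 (y i) := by
      have h2 : (1:K) = y i + -(y i - 1) := by ring
      have h3 : w.1 (1:K) ≤ w.1 (y i) + w.1 (y i - 1) := by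
        calc w.1 (1:K) = w.1 (y i + -(y i - 1)) := by rw [← h2]
          _ ≤ w.1 (y i) + w.1 (-(y i - 1)) := w.1.add_le _ _
          _ = _ := by rw [w.1.map_neg]
      rw [map_one] at h3
      have := hy' i
      linarith
    have h4 : 0 < w.1 (y i) := by linarith
    have h5 : y i ≠ 0 := by
      intro h
      rw [h, map_zero] at h4
      exact lt_irrefl _ h4
    have h6 : (y i)⁻¹ - 1 = -(y i - 1) / y i := by
      field_simp
      ring
    rw [h6, map_div₀, w.1.map_neg, div_le_iff₀ h4]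
    have h7 := hy' i
    have h8 : 2 * δ * (1 - δ) ≤ 2 * δ * w.1 (y i) := mul_le_mul_of_nonneg_left h1 (by linarith)
    nlinarith
  have h1 := near_prod w.1 I y (t := 2 * δ) (fun i _ => (hy' i).trans (by linarith)) (by linarith)
  have h2 := near_prod w.1 J (fun j => (y j)⁻¹) (t := 2 * δ) (fun i _ => hinv i) (by linarith)
  have h3 := near_mul w.1 (∏ i ∈ I, y i) (∏ j ∈ J, (y j)⁻¹)
  have h4 := near_pow w.1 ((∏ i ∈ I, y i) * (∏ j ∈ J, (y j)⁻¹)) h
  have hIc : I.card ≤ n := by simpa using Finset.card_le_univ I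
  have hJc : J.card ≤ n := by simpa using Finset.card_le_univ J
  have h5 : 1 + w.1 ((∏ i ∈ I, y i) * (∏ j ∈ J, (y j)⁻¹) - 1) ≤ (1 + 2 * δ) ^ (2 * n) := by
    refine h3.trans ?_
    calc (1 + w.1 (∏ i ∈ I, y i - 1)) * (1 + w.1 (∏ j ∈ J, (y j)⁻¹ - 1))
        ≤ (1 + 2 * δ) ^ I.card * (1 + 2 * δ) ^ J.card := by
          apply mul_le_mul h1 h2
          · have := w.1.nonneg (∏ j ∈ J, (y j)⁻¹ - 1)
            linarith
          · positivity
      _ = (1 + 2 * δ) ^ (I.card + J.card) := (pow_add _ _ _).symm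
      _ ≤ (1 + 2 * δ) ^ (2 * n) := pow_le_pow_right₀ (by linarith) (by omega)
  have h6 : (1 + w.1 ((∏ i ∈ I, y i) * (∏ j ∈ J, (y j)⁻¹) - 1)) ^ h ≤ (1 + 2 * δ) ^ (2 * n * h) := by
    rw [pow_mul]
    apply pow_le_pow_left₀ _ h5
    have := w.1.nonneg ((∏ i ∈ I, y i) * (∏ j ∈ J, (y j)⁻¹) - 1)
    linarith
  have h7 : (1 + 2 * δ) ^ (2 * n * h) ≤ Real.exp (4 * (n * h : ℕ) * δ) := by
    have h8 : 1 + 2 * δ ≤ Real.exp (2 * δ) := by
      have := Real.add_one_le_exp (2 * δ)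
      linarith
    calc (1 + 2 * δ) ^ (2 * n * h) ≤ (Real.exp (2 * δ)) ^ (2 * n * h) :=
          pow_le_pow_left₀ (by linarith) h8 _
      _ = Real.exp (4 * (n * h : ℕ) * δ) := by
          rw [← Real.exp_nat_mul]
          congr 1
          push_cast
          ring
  have h9 : Real.exp (4 * (n * h : ℕ) * δ) ≤ 1 + 8 * (n * h : ℕ) * δ := by
    obtain ⟨x, hx⟩ : ∃ x : ℝ, x = 4 * (n * h : ℕ) * δ := ⟨_, rfl⟩
    have hx0 : 0 ≤ x := by rw [hx]; positivity
    have hx1 : x ≤ 1/2 := by rw [hx]; linarith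
    have h10 := Real.abs_exp_sub_one_sub_id_le (x := x) (by rw [abs_of_nonneg hx0]; linarith)
    rw [abs_le] at h10
    have h11 : 8 * (n * h : ℕ) * δ = 2 * x := by rw [hx]; ring
    rw [h11, ← hx]
    nlinarith [h10.2]
  have h12 : ((∏ i ∈ I, y i) / ∏ j ∈ J, y j) = (∏ i ∈ I, y i) * (∏ j ∈ J, (y j)⁻¹) := by
    rw [Finset.prod_inv_distrib, div_eq_mul_inv]
  have h13 : w.1 (((∏ i ∈ I, y i) / ∏ j ∈ J, y j) ^ h - 1) ≤ 8 * (n * h : ℕ) * δ := by
    rw [h12]
    linarith [h4.trans (h6.trans (h7.trans h9))]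
  exact h13

theorem prod_near_one_fin {v : Pr K} {n h : ℕ} (y : Fin n → K) (I J : Finset (Fin n)) {δ : ℝ}
    (hδ0 : 0 < δ) (hδ1 : δ < 1) (hy : ∀ i, fv v (y i - 1) ≤ δ) :
    fv v (((∏ i ∈ I, y i) / ∏ j ∈ J, y j) ^ h - 1) ≤ δ := by
  have hone : ∀ a : K, fv v (a - 1) ≤ δ → fv v a = 1 := by
    intro a ha
    have h1 : fv v a ≤ 1 := by
      have h2 : a = 1 + (a - 1) := by ring
      rw [h2]
      refine (fv_na v _ _).trans (max_le ?_ (ha.trans hδ1.le))
      rw [map_one]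
    apply le_antisymm h1
    have h3 : (1:K) = a + -(a - 1) := by ring
    have h4 : (1:ℝ) ≤ max (fv v a) (fv v (a - 1)) := by
      calc (1:ℝ) = fv v (1:K) := by rw [map_one]
        _ = fv v (a + -(a - 1)) := by rw [← h3]
        _ ≤ max (fv v a) (fv v (-(a - 1))) := fv_na v _ _
        _ = _ := by rw [(fv v).map_neg]
    rcases le_max_iff.1 h4 with h5 | h5
    · exact h5
    · linarith
  have hmul : ∀ a b : K, fv v (a - 1) ≤ δ → fv v (b - 1) ≤ δ → fv v (a * b - 1) ≤ δ := by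
    intro a b ha hb
    have h1 : a * b - 1 = a * (b - 1) + (a - 1) := by ring
    rw [h1]
    refine (fv_na v _ _).trans (max_le ?_ ha)
    rw [map_mul, hone a ha, one_mul]
    exact hb
  have hinv : ∀ a : K, fv v (a - 1) ≤ δ → fv v (a⁻¹ - 1) ≤ δ := by
    intro a ha
    have h1 := hone a ha
    have h2 : a ≠ 0 := by
      intro h
      rw [h, map_zero] at h1
      exact zero_ne_one h1
    have h3 : a⁻¹ - 1 = -(a - 1) / a := by
      field_simp
      ring
    rw [h3, map_div₀, (fv v).map_neg, h1, div_one]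
    exact ha
  have hz : fv v ((1:K) - 1) ≤ δ := by
    rw [sub_self, map_zero]
    exact hδ0.le
  have hprod : ∀ (s : Finset (Fin n)) (f : Fin n → K), (∀ i, fv v (f i - 1) ≤ δ) →
      fv v (∏ i ∈ s, f i - 1) ≤ δ := by
    intro s f hf
    induction s using Finset.induction_on with
    | empty => simpa using hδ0.le
    | insert i s hi ih =>
      rw [Finset.prod_insert hi]
      exact hmul _ _ (hf i) ih
  have h12 : ((∏ i ∈ I, y i) / ∏ j ∈ J, y j) = (∏ i ∈ I, y i) * (∏ j ∈ J, (y j)⁻¹) := by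
    rw [Finset.prod_inv_distrib, div_eq_mul_inv]
  rw [h12]
  have h14 := hmul _ _ (hprod I y hy) (hprod J (fun j => (y j)⁻¹) (fun i => hinv _ (hy i)))
  obtain ⟨a, ha⟩ : ∃ a, a = (∏ i ∈ I, y i) * (∏ j ∈ J, (y j)⁻¹) := ⟨_, rfl⟩
  rw [← ha] at h14 ⊢
  induction h with
  | zero => simpa using hδ0.le
  | succ k ih =>
    rw [pow_succ]
    exact hmul _ _ ih h14

end Pool.Agent.TH876.KR
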