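import Pool.Agent.TH876.KR.Gens
import Pool.Agent.TH876.KR.Sector

set_option autoImplicit false

/-!
# The pigeonhole argument over a number field
-/

namespace Pool.Agent.TH876.KR

open NumberField IsDedekindDomain Finset Pool.Agent.H691R3 Pool.Agent.TH876.Loc

variable {K : Type} [Field K] [NumberField K]

theorem fv_int_le (v : Pr K) (t : 𝓞 K) : fv v (t : K) ≤ 1 := by
  have h := NumberField.FinitePlace.norm_le_one (K := K) v t
  exact h

theorem fv_unit (v : Pr K) (u : (𝓞 K)ˣ) : fv v ((u : 𝓞 K) : K) = 1 := by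
  have h1 := fv_int_le v (u : 𝓞 K)
  have h2 := fv_int_le v ((u⁻¹ : (𝓞 K)ˣ) : 𝓞 K)
  have h3 : fv v ((u : 𝓞 K) : K) * fv v (((u⁻¹ : (𝓞 K)ˣ) : 𝓞 K) : K) = 1 := by
    rw [← map_mul, ← map_mul, ← Units.val_mul, mul_inv_cancel]
    simp
  have h4 : 0 ≤ fv v ((u : 𝓞 K) : K) := (fv v).nonneg _
  nlinarith

theorem unit_ne (u : (𝓞 K)ˣ) : ((u : 𝓞 K) : K) ≠ 0 := by
  intro h
  have h1 : (u : 𝓞 K) = 0 := by exact_mod_cast h
  exact u.ne_zero h1

theorem coe_zpow_unit (u : (𝓞 K)ˣ) (n : ℤ) :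
    (((u ^ n : (𝓞 K)ˣ) : 𝓞 K) : K) = ((u : 𝓞 K) : K) ^ n := by
  have h1 : (((u ^ n : (𝓞 K)ˣ) : 𝓞 K) : K) =
      ((Units.map (algebraMap (𝓞 K) K).toMonoidHom (u ^ n) : Kˣ) : K) := rfl
  rw [h1, map_zpow, Units.val_zpow_eq_zpow_val]
  rfl

theorem coe_unit_mul_prod {ι : Type*} (u : (𝓞 K)ˣ) (I : Finset ι) (f : ι → 𝓞 K) :
    (((u : 𝓞 K) * ∏ i ∈ I, f i : 𝓞 K) : K) = ((u : 𝓞 K) : K) * ∏ i ∈ I, (f i : K) := by
  show algebraMap (𝓞 K) K _ = _
  rw [map_mul, map_prod]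

theorem zpow_sum' {ι : Type*} {z : K} (hz : z ≠ 0) (I : Finset ι) (f : ι → ℤ) :
    ∏ i ∈ I, z ^ f i = z ^ ∑ i ∈ I, f i := by
  classical
  induction I using Finset.induction_on with
  | empty => simp
  | insert i I hi ih => rw [Finset.prod_insert hi, Finset.sum_insert hi, ih, zpow_add₀ hz]

/-- sums of bounded integers as natural numbers -/
theorem shift_inj {N : ℕ} {a b : ℤ} (ha : |a| ≤ N) (hb : |b| ≤ N)
    (h : (a + N).toNat = (b + N).toNat) : a = b := by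
  rw [abs_le] at ha hb
  omega

theorem shift_lt {N : ℕ} {a : ℤ} (ha : |a| ≤ N) : (a + N).toNat < 2 * N + 1 := by
  rw [abs_le] at ha
  omega

theorem sum_abs_le {n E : ℕ} (a : Fin n → ℤ) (ha : ∀ i, |a i| ≤ E) (I : Finset (Fin n)) :
    |∑ i ∈ I, a i| ≤ ((n * E : ℕ) : ℤ) := by
  refine (Finset.abs_sum_le_sum_abs _ _).trans ?_
  calc ∑ i ∈ I, |a i| ≤ ∑ _i ∈ I, (E : ℤ) := Finset.sum_le_sum fun i _ => ha i
    _ = I.card * (E : ℤ) := by rw [Finset.sum_const, nsmul_eq_mul]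
    _ ≤ n * (E : ℤ) := by
        refine mul_le_mul_of_nonneg_right ?_ (by positivity)
        have := Finset.card_le_univ I
        rw [Fintype.card_fin] at this
        exact_mod_cast this
    _ = _ := by push_cast; ring

section Mod

/-- a modulus divisible by the squares of the rational primes below `S` -/
noncomputable def md (S : Finset (Pr K)) : ℕ := ∏ v ∈ S, pv v ^ 2

theorem md_pos (S : Finset (Pr K)) : 0 < md S :=
  Finset.prod_pos fun v _ => pow_pos (pv_prime v).pos _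

theorem md_le (S : Finset (Pr K)) : (md S : ℝ) ≤ nn S ^ 2 := by
  unfold md nn
  push_cast
  rw [← Finset.prod_pow]
  exact Finset.prod_le_prod (fun v _ => by positivity) fun v _ =>
    pow_le_pow_left₀ (Nat.cast_nonneg _) (pv_le_Nv v) 2

theorem fv_md {S : Finset (Pr K)} {v : Pr K} (hv : v ∈ S) :
    fv v ((md S : ℕ) : K) ≤ fv v ((pv v : ℕ) : K) ^ 2 := by
  classical
  unfold md
  rw [← Finset.mul_prod_erase S _ hv, Nat.cast_mul, map_mul, Nat.cast_pow, map_pow]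
  exact mul_le_of_le_one_right (by positivity) (fv_natCast_le v _)

/-- the number of residues -/
theorem exists_residue (m : ℕ) (hm : 0 < m) : ∃ f : 𝓞 K → Fin (m ^ Module.finrank ℚ K),
    ∀ a b, f a = f b → ∃ t : 𝓞 K, a - b = (m : 𝓞 K) * t := by
  have hne : Ideal.span {((m : ℕ) : 𝓞 K)} ≠ ⊥ := by
    rw [Ne, Ideal.span_singleton_eq_bot]
    exact_mod_cast hm.ne'
  have hcard : Nat.card (𝓞 K ⧸ Ideal.span {((m : ℕ) : 𝓞 K)}) = m ^ Module.finrank ℚ K := by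
    have h1 := Ideal.absNorm_span_natCast (S := 𝓞 K) m
    rw [RingOfIntegers.rank] at h1
    rw [← h1]
    rfl
  haveI : Finite (𝓞 K ⧸ Ideal.span {((m : ℕ) : 𝓞 K)}) := by
    refine Nat.finite_of_card_ne_zero ?_
    rw [hcard]
    exact (pow_pos hm _).ne'
  refine ⟨fun a => (Finite.equivFinOfCardEq hcard) (Ideal.Quotient.mk _ a), fun a b hab => ?_⟩
  have h1 := (Finite.equivFinOfCardEq hcard).injective hab
  rw [Ideal.Quotient.eq, Ideal.mem_span_singleton] at h1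
  exact h1

end Mod

variable (K) in
theorem pig_exists : ∃ (h : ℕ) (C : ℕ), 1 ≤ h ∧ 1 ≤ C ∧ ∀ (S : Finset (Pr K)) (n e E : ℕ)
    (y : Fin n → K) (p : Fin n → Pr K), 1 ≤ e → (∀ i, y i ≠ 0) → (∀ i, p i ∉ S) →
    (∀ i v, v ∉ S → v ≠ p i → fv v (y i) = 1) → (∀ i, fv (p i) (y i) = (Nv (p i))⁻¹ ^ e) →
    (∀ i, ∀ v ∈ S, ∃ a : ℤ, |a| ≤ E ∧ fv v (y i) = (Nv v)⁻¹ ^ a) →
    ((n : ℝ) + 1) * (2 * n * E + 1) ^ S.card * (9 * e) ^ C * nn S ^ C < 2 ^ n →
    ∃ I J : Finset (Fin n), I ≠ J ∧ I.card = J.card ∧ ∃ g : K, g ≠ 0 ∧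
      g ^ e = ((∏ i ∈ I, y i) / ∏ j ∈ J, y j) ^ h ∧
      (∀ v ∈ S, fv v (g - 1) ≤ fv v ((pv v : ℕ) : K) ^ 2) ∧
      (∀ w : InfinitePlace K, |(w.embedding g).arg| * (4 * e) ≤ Real.pi) := by
  classical
  obtain ⟨h, r, ε, gg, hh, hg1, hg2, hdec⟩ := gens K
  set d := Module.finrank ℚ K with hd
  refine ⟨h, r + Fintype.card (InfinitePlace K) + 2 * d + 1, hh, by omega, ?_⟩
  intro S n e E y p he hy hpS hy1 hyp hyS hcount
  -- the exponents at the primes of `S`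
  have hex : ∀ i, ∃ a : Pr K → ℤ, ∀ v ∈ S, |a v| ≤ E ∧ fv v (y i) = (Nv v)⁻¹ ^ (a v) := by
    intro i
    have h1 : ∀ v : Pr K, ∃ a : ℤ, v ∈ S → |a| ≤ E ∧ fv v (y i) = (Nv v)⁻¹ ^ a := by
      intro v
      by_cases hv : v ∈ S
      · obtain ⟨a, ha⟩ := hyS i v hv
        exact ⟨a, fun _ => ha⟩
      · exact ⟨0, fun h => absurd h hv⟩
    choose a ha using h1
    exact ⟨a, ha⟩
  choose a ha using hex
  choose b hb using fun i => hdec S (p i) e (a i) (y i) (hy i) (hpS i) (hy1 i) (hyp i)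
    (fun v hv => (ha i v hv).2)
  have ha' : ∀ v ∈ S, ∀ i, |a i v| ≤ E := fun v hv i => (ha i v hv).1
  obtain ⟨fs, hfs1, hfs2⟩ := sector_index e he
  obtain ⟨fr, hfr⟩ := exists_residue (K := K) (md S) (md_pos S)
  have he0 : (0 : ℤ) < e := by exact_mod_cast he
  have hgne : ∀ v : Pr K, ((gg v : 𝓞 K) : K) ≠ 0 := by
    intro v h0
    have h1 := hg1 v
    rw [h0, map_zero] at h1
    have : 0 < (Nv v)⁻¹ ^ h := pow_pos (inv_pos.2 (Nv_pos v)) _
    linarith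
  -- the integral elements
  let un : Finset (Fin n) → (𝓞 K)ˣ := fun I => ∏ j, ε j ^ ((∑ i ∈ I, b i j) / (e : ℤ))
  let G : Finset (Fin n) → 𝓞 K := fun I => (un I : 𝓞 K) * ∏ i ∈ I, gg (p i)
  have hGne : ∀ I, ((G I : 𝓞 K) : K) ≠ 0 := by
    intro I
    show (((un I : 𝓞 K) * ∏ i ∈ I, gg (p i) : 𝓞 K) : K) ≠ 0
    rw [coe_unit_mul_prod]
    exact mul_ne_zero (unit_ne _) (Finset.prod_ne_zero_iff.2 fun i _ => hgne _)
  have hGS : ∀ I, ∀ v ∈ S, fv v ((G I : 𝓞 K) : K) = 1 := by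
    intro I v hv
    show fv v (((un I : 𝓞 K) * ∏ i ∈ I, gg (p i) : 𝓞 K) : K) = 1
    rw [coe_unit_mul_prod, map_mul, map_prod, fv_unit v (un I), one_mul]
    refine Finset.prod_eq_one fun i _ => ?_
    exact hg2 v (p i) fun hvp => hpS i (hvp ▸ hv)
  let R : Finset (Fin n) → K := fun I =>
    (∏ j, ((ε j : 𝓞 K) : K) ^ ((∑ i ∈ I, b i j) % (e : ℤ))) * ∏ v ∈ S, (gg v : K) ^ (∑ i ∈ I, a i v)
  have hR : ∀ I, (∏ i ∈ I, y i) ^ h = R I * ((G I : 𝓞 K) : K) ^ e := by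
    intro I
    rw [← Finset.prod_pow]
    rw [Finset.prod_congr rfl fun i _ => hb i]
    rw [Finset.prod_mul_distrib, Finset.prod_mul_distrib]
    show _ = (∏ j, ((ε j : 𝓞 K) : K) ^ ((∑ i ∈ I, b i j) % (e : ℤ))) *
      (∏ v ∈ S, (gg v : K) ^ (∑ i ∈ I, a i v)) *
      (((un I : 𝓞 K) * ∏ i ∈ I, gg (p i) : 𝓞 K) : K) ^ e
    have e1 : ∏ i ∈ I, ∏ v ∈ S, (gg v : K) ^ (a i v) = ∏ v ∈ S, (gg v : K) ^ (∑ i ∈ I, a i v) := by
      rw [Finset.prod_comm]
      refine Finset.prod_congr rfl fun v _ => ?_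
      exact zpow_sum' (hgne v) I fun i => a i v
    have e2 : ∏ i ∈ I, ∏ j, ((ε j : 𝓞 K) : K) ^ (b i j) =
        ∏ j, ((ε j : 𝓞 K) : K) ^ (∑ i ∈ I, b i j) := by
      rw [Finset.prod_comm]
      refine Finset.prod_congr rfl fun j _ => ?_
      exact zpow_sum' (unit_ne (ε j)) I fun i => b i j
    have e3 : (((un I : 𝓞 K) * ∏ i ∈ I, gg (p i) : 𝓞 K) : K) ^ e =
        (∏ j, ((ε j : 𝓞 K) : K) ^ ((e : ℤ) * ((∑ i ∈ I, b i j) / (e : ℤ)))) *
          ∏ i ∈ I, (gg (p i) : K) ^ e := by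
      rw [coe_unit_mul_prod, mul_pow, ← Finset.prod_pow]
      congr 1
      have e4 : (((un I : (𝓞 K)ˣ) : 𝓞 K) : K) =
          ∏ j, ((ε j : 𝓞 K) : K) ^ ((∑ i ∈ I, b i j) / (e : ℤ)) := by
        show algebraMap (𝓞 K) K (((∏ j, ε j ^ ((∑ i ∈ I, b i j) / (e : ℤ)) : (𝓞 K)ˣ) : 𝓞 K)) = _
        rw [Units.coe_prod, map_prod]
        refine Finset.prod_congr rfl fun j _ => ?_
        exact coe_zpow_unit _ _
      rw [e4, ← Finset.prod_pow]
      refine Finset.prod_congr rfl fun j _ => ?_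
      rw [← zpow_natCast, ← zpow_mul, mul_comm]
    rw [e1, e2, e3]
    have e5 : ∏ j, ((ε j : 𝓞 K) : K) ^ (∑ i ∈ I, b i j) =
        (∏ j, ((ε j : 𝓞 K) : K) ^ ((∑ i ∈ I, b i j) % (e : ℤ))) *
        ∏ j, ((ε j : 𝓞 K) : K) ^ ((e : ℤ) * ((∑ i ∈ I, b i j) / (e : ℤ))) := by
      rw [← Finset.prod_mul_distrib]
      refine Finset.prod_congr rfl fun j _ => ?_
      rw [← zpow_add₀ (unit_ne (ε j)), Int.emod_add_mul_ediv]
    rw [e5]
    ring
  have hRne : ∀ I, R I ≠ 0 := by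
    intro I
    refine mul_ne_zero (Finset.prod_ne_zero_iff.2 fun j _ => zpow_ne_zero _ (unit_ne (ε j)))
      (Finset.prod_ne_zero_iff.2 fun v _ => zpow_ne_zero _ (hgne v))
  -- the invariants
  let φ : Finset (Fin n) → Fin (n + 1) × (S → Fin (2 * (n * E) + 1)) × (Fin r → Fin e) ×
      Fin ((md S) ^ d) × (InfinitePlace K → Fin (8 * e + 1)) := fun I =>
    (⟨I.card, by
        have := Finset.card_le_univ I
        rw [Fintype.card_fin] at this
        omega⟩,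
     fun v => ⟨(∑ i ∈ I, a i v + ((n * E : ℕ) : ℤ)).toNat,
        shift_lt (sum_abs_le (fun i => a i v) (ha' v v.2) I)⟩,
     fun j => ⟨((∑ i ∈ I, b i j) % (e : ℤ)).toNat, by
        have h1 := Int.emod_nonneg (∑ i ∈ I, b i j) he0.ne'
        have h2 := Int.emod_lt_of_pos (∑ i ∈ I, b i j) he0
        omega⟩,
     fr (G I),
     fun w => ⟨fs (w.embedding ((G I : 𝓞 K) : K)), hfs1 _⟩)
  have hcard : Fintype.card (Fin (n + 1) × (S → Fin (2 * (n * E) + 1)) × (Fin r → Fin e) ×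
      Fin ((md S) ^ d) × (InfinitePlace K → Fin (8 * e + 1))) < Fintype.card (Finset (Fin n)) := by
    rw [Fintype.card_finset, Fintype.card_fin]
    simp only [Fintype.card_prod, Fintype.card_fin, Fintype.card_fun, Fintype.card_coe]
    have he1 : (1 : ℝ) ≤ e := by exact_mod_cast he
    have hnn : 1 ≤ nn S := one_le_nn S
    have hreal : ((((n + 1) * ((2 * (n * E) + 1) ^ S.card * (e ^ r * (md S ^ d *
        (8 * e + 1) ^ Fintype.card (InfinitePlace K))))) : ℕ) : ℝ) < ((2 ^ n : ℕ) : ℝ) := by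
      refine lt_of_le_of_lt ?_ (by push_cast; exact hcount)
      push_cast
      have h1 : (e : ℝ) ^ r ≤ (9 * e) ^ r := pow_le_pow_left₀ (by positivity) (by linarith) _
      have h2 : ((8 : ℝ) * e + 1) ^ Fintype.card (InfinitePlace K) ≤
          (9 * e) ^ Fintype.card (InfinitePlace K) :=
        pow_le_pow_left₀ (by positivity) (by linarith) _
      have h3 : (md S : ℝ) ^ d ≤ nn S ^ (r + Fintype.card (InfinitePlace K) + 2 * d + 1) := by
        calc (md S : ℝ) ^ d ≤ (nn S ^ 2) ^ d := pow_le_pow_left₀ (Nat.cast_nonneg _) (md_le S) _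
          _ = nn S ^ (2 * d) := by rw [← pow_mul]
          _ ≤ _ := pow_le_pow_right₀ hnn (by omega)
      have h4 : (e : ℝ) ^ r * (8 * e + 1) ^ Fintype.card (InfinitePlace K) ≤
          (9 * e) ^ (r + Fintype.card (InfinitePlace K) + 2 * d + 1) := by
        calc (e : ℝ) ^ r * (8 * e + 1) ^ Fintype.card (InfinitePlace K) ≤
            (9 * e) ^ r * (9 * e) ^ Fintype.card (InfinitePlace K) :=
              mul_le_mul h1 h2 (by positivity) (by positivity)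
          _ = (9 * (e : ℝ)) ^ (r + Fintype.card (InfinitePlace K)) := by rw [← pow_add]
          _ ≤ _ := pow_le_pow_right₀ (by linarith) (by omega)
      calc ((n : ℝ) + 1) * ((2 * (n * E) + 1) ^ S.card * (e ^ r * ((md S : ℝ) ^ d *
            (8 * e + 1) ^ Fintype.card (InfinitePlace K)))) =
          ((n : ℝ) + 1) * (2 * n * E + 1) ^ S.card *
            ((e : ℝ) ^ r * (8 * e + 1) ^ Fintype.card (InfinitePlace K)) * (md S : ℝ) ^ d := by
            ring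
        _ ≤ ((n : ℝ) + 1) * (2 * n * E + 1) ^ S.card *
            (9 * e) ^ (r + Fintype.card (InfinitePlace K) + 2 * d + 1) *
            nn S ^ (r + Fintype.card (InfinitePlace K) + 2 * d + 1) := by
            refine mul_le_mul (mul_le_mul_of_nonneg_left h4 (by positivity)) h3 (by positivity)
              (by positivity)
    exact_mod_cast hreal
  obtain ⟨I, J, hIJ, hφ⟩ := Fintype.exists_ne_map_eq_of_card_lt φ hcard
  simp only [φ, Prod.mk.injEq] at hφ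
  obtain ⟨q1, q2, q3, q4, q5⟩ := hφ
  have q1' : I.card = J.card := congrArg Fin.val q1
  have q2' : ∀ v ∈ S, ∑ i ∈ I, a i v = ∑ i ∈ J, a i v := by
    intro v hv
    have h1 := congrArg Fin.val (congrFun q2 ⟨v, hv⟩)
    exact shift_inj (sum_abs_le (fun i => a i v) (ha' v hv) I)
      (sum_abs_le (fun i => a i v) (ha' v hv) J) h1
  have q3' : ∀ j, (∑ i ∈ I, b i j) % (e : ℤ) = (∑ i ∈ J, b i j) % (e : ℤ) := by
    intro j
    have h1 := congrArg Fin.val (congrFun q3 j)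
    have h2 := Int.emod_nonneg (∑ i ∈ I, b i j) he0.ne'
    have h3 := Int.emod_nonneg (∑ i ∈ J, b i j) he0.ne'
    simp only at h1
    omega
  have hRIJ : R I = R J := by
    show _ * _ = _ * _
    congr 1
    · exact Finset.prod_congr rfl fun j _ => by rw [q3' j]
    · exact Finset.prod_congr rfl fun v hv => by rw [q2' v hv]
  refine ⟨I, J, hIJ, q1', ((G I : 𝓞 K) : K) / ((G J : 𝓞 K) : K), div_ne_zero (hGne I) (hGne J),
    ?_, ?_, ?_⟩
  · rw [div_pow, div_pow, hR I, hR J, hRIJ, mul_div_mul_left _ _ (hRne J)]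
  · intro v hv
    obtain ⟨t, ht⟩ := hfr _ _ q4
    have h1 : ((G I : 𝓞 K) : K) / ((G J : 𝓞 K) : K) - 1 =
        (((md S : ℕ) : K) * (t : K)) / ((G J : 𝓞 K) : K) := by
      have h2 : ((G I : 𝓞 K) : K) - ((G J : 𝓞 K) : K) = ((md S : ℕ) : K) * (t : K) := by
        have h3 : algebraMap (𝓞 K) K (G I - G J) = algebraMap (𝓞 K) K (((md S : ℕ) : 𝓞 K) * t) :=
          congrArg _ ht
        rw [map_sub] at h3
        rw [map_mul (algebraMap (𝓞 K) K) ((md S : ℕ) : 𝓞 K) t, map_natCast] at h3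
        exact h3
      have h3 := hGne J
      field_simp
      linear_combination h2
    rw [h1, map_div₀, map_mul, hGS J v hv, div_one]
    refine (mul_le_of_le_one_right ((fv v).nonneg _) (fv_int_le v t)).trans (fv_md hv)
  · intro w
    have h1 := congrArg Fin.val (congrFun q5 w)
    rw [map_div₀]
    exact hfs2 _ _ ((map_ne_zero _).2 (hGne I)) ((map_ne_zero _).2 (hGne J)) h1

end Pool.Agent.TH876.KR
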